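import Pool.Agent.NIPFields.RC.KumB
import Pool.Agent.NIPFields.RB.Kummer

set_option autoImplicit false

/-!
# Different Kummer characters on a smaller group

Proof. Assume that `χ γ = χ' γ` for all automorphisms `γ` of `Ω` over `F` which fix the elements of `L'`.
For such a `γ`, `γ y = c * y` and `γ y' = c * y'` with the same `c = algebraMap F Ω (ζ ^ _)`, `c ≠ 0`, so
`γ (y / y') = y / y'` (see the proof of `RB.char_ne` in the file `RB/KummerB.lean`). Let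
`σ : Ω ≃ₐ[L'] Ω` fix all elements which are algebraic over `L`. By `hF` it fixes the elements of `F`, so it
gives `γ : Ω ≃ₐ[F] Ω` with the same values (`AlgEquiv.ofRingEquiv` with `f := σ.toRingEquiv`), which fixes
`L'`. So `σ (y / y') = y / y'`. By `kummer_desc` `w = a * v ^ ℓ` with `a ≠ 0`, contradiction to `hwn`.
-/

namespace Pool.Agent.NIPFields.RC

open Pool.Agent.NIPFields.RB

theorem char_ne_desc {F L L' Ω : Type*} [Field F] [Field L] [Field L'] [Field Ω] [Algebra L L']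
    [Algebra L' Ω] [Algebra L Ω] [IsScalarTower L L' Ω] [Algebra F Ω] [IsAlgClosed Ω]
    [Algebra.IsAlgebraic L' Ω] [CharZero L] {ℓ : ℕ} (hℓ : ℓ.Prime) {ζL : L}
    (hζL : IsPrimitiveRoot ζL ℓ)
    (hrac : ∀ x : L', IsAlgebraic L x → ∃ a : L, algebraMap L L' a = x)
    (hF : ∀ σ : Ω ≃ₐ[L'] Ω, (∀ x : Ω, IsAlgebraic L x → σ x = x) →
      ∀ x : F, σ (algebraMap F Ω x) = algebraMap F Ω x)
    {ζ : F} {y y' : Ω} {w : L'} (hw : w ≠ 0) (hy0 : y ≠ 0) (hy0' : y' ≠ 0)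
    (hyy : (y / y') ^ ℓ = algebraMap L' Ω w)
    {χ χ' : (Ω ≃ₐ[F] Ω) →* Multiplicative (ZMod ℓ)} (hχ : IsChar ζ y χ) (hχ' : IsChar ζ y' χ')
    (hwn : ∀ a : L, a ≠ 0 → ∀ v : L', w ≠ algebraMap L L' a * v ^ ℓ) :
    ∃ γ : Ω ≃ₐ[F] Ω, (∀ x : L', γ (algebraMap L' Ω x) = algebraMap L' Ω x) ∧ χ γ ≠ χ' γ := by
  by_contra hcon
  push Not at hcon
  have hfix : ∀ γ : Ω ≃ₐ[F] Ω, (∀ x : L', γ (algebraMap L' Ω x) = algebraMap L' Ω x) →
      γ (y / y') = y / y' := by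
    intro γ hγ
    have h1 := hχ γ
    have h2 := hχ' γ
    rw [hcon γ hγ] at h1
    set c := algebraMap F Ω (ζ ^ (Multiplicative.toAdd (χ' γ)).val) with hc
    have hc0 : c ≠ 0 := by
      intro h0
      rw [h0, zero_mul] at h2
      exact hy0' ((map_eq_zero γ).1 h2)
    rw [map_div₀, h1, h2, mul_div_mul_left _ _ hc0]
  obtain ⟨a, ha, v, hv⟩ := kummer_desc hℓ hζL hrac hw hyy (fun σ hσ => by
    have h1 := hF σ hσ
    have h2 := hfix (AlgEquiv.ofRingEquiv (f := σ.toRingEquiv) h1) (fun x => σ.commutes x)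
    exact h2)
  exact hwn a ha v hv

end Pool.Agent.NIPFields.RC
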