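import Mathlib

set_option autoImplicit false

/-!
# A Galois extension given by polynomials

`a g`, `g ∈ G`, are pairwise different roots of a monic polynomial `P` of degree `|G|` over `L`, the
polynomials `R h` satisfy `R h (a g) = a (g * h)`, and `a 1` is not a root of a non-zero polynomial
over `L` of degree less than `|G|`. Then `L(a 1)` is a finite Galois extension of `L` with group `G`.

Proof. Let `n = |G|`, `α = a 1`. It is integral over `L` (root of `P`); its minimal polynomial divides
`P` and has degree at least `n` (`hmin` for `minpoly L α ≠ 0`), so `minpoly L α = P`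
(`Polynomial.eq_of_monic_of_associated`, or `Polynomial.eq_of_monic_of_dvd_of_natDegree_le`). `M = L(α)`
(`IntermediateField.adjoin L {α}`, finite of degree `n`: `IntermediateField.adjoin.finrank`). For
`g ∈ G` we have `a g = aeval α (R g) ∈ M` (`hR 1 g`, `one_mul`). So `P` has `n` different roots in `M`, so it
splits in `M` (`Polynomial.splits_iff_card_roots`) and is separable
(`Polynomial.nodup_roots_iff_of_splits` or: `P` has `n` different roots in `M`, so
`P = ∏ g, (X - C (a g))` over `M`, `Polynomial.separable_prod_X_sub_C_iff`), so `M/L` is Galois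
(`IsGalois.of_separable_splitting_field` with `IsSplittingField`, or
`IntermediateField.adjoin.isGalois`-like lemmas, or `IsGalois.of_card_aut_eq_finrank` after the
construction below). For `g ∈ G` there is a unique `σ g ∈ Gal(M/L)` with `σ g α = a g`
(`IntermediateField.adjoin.powerBasis`: `PowerBasis.lift`/`algHomAdjoinIntegralEquiv`; an `L`-algebra
homomorphism `M → M` is bijective, `AlgEquiv.ofBijective` with `AlgHom.bijective`). For `g, h ∈ G`:
`σ g (σ h α) = σ g (a h) = σ g (aeval α (R h)) = aeval (σ g α) (R h) = aeval (a g) (R h) = a (g * h)`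
`= σ (g * h) α`, so `σ` is a homomorphism. It is injective because `a` is injective. Every element
`τ` of `Gal(M/L)` is `σ g` for some `g`: `τ α` is a root of `P`, and the `a g` are all the `n` roots of
`P`. So `σ` is an isomorphism; the number of elements of `Gal(M/L)` is `n = [M : L]`, so `M/L` is
Galois (`IsGalois.of_card_aut_eq_finrank`).
-/

namespace Pool.Agent.NIPFields.RC

open Polynomial

theorem gal_of_data {L Ω : Type*} [Field L] [Field Ω] [Algebra L Ω] {G : Type*} [Group G]
    [Fintype G] (P : L[X]) (hPm : P.Monic) (hPd : P.natDegree = Fintype.card G) (a : G → Ω)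
    (hinj : Function.Injective a) (hroot : ∀ g, aeval (a g) P = 0) (R : G → L[X])
    (hR : ∀ g h, aeval (a g) (R h) = a (g * h))
    (hmin : ∀ p : L[X], p ≠ 0 → aeval (a 1) p = 0 → Fintype.card G ≤ p.natDegree) :
    ∃ M : IntermediateField L Ω, FiniteDimensional L M ∧ IsGalois L M ∧
      Nonempty (G ≃* (M ≃ₐ[L] M)) := by
  classical
  have hP0 : P ≠ 0 := hPm.ne_zero
  have hint : IsIntegral L (a 1) := ⟨P, hPm, by rw [← aeval_def]; exact hroot 1⟩
  have hdvd : minpoly L (a 1) ∣ P := minpoly.dvd L (a 1) (hroot 1)
  have hmp : P = minpoly L (a 1) :=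
    eq_of_monic_of_dvd_of_natDegree_le (minpoly.monic hint) hPm hdvd
      (by rw [hPd]; exact hmin _ (minpoly.ne_zero hint) (minpoly.aeval L (a 1)))
  -- the roots of `P` in `Ω`
  have hroots : ∀ x : Ω, aeval x P = 0 → ∃ g, a g = x := by
    have h1 : Finset.univ.image a ⊆ (P.aroots Ω).toFinset := by
      intro x hx
      obtain ⟨g, -, rfl⟩ := Finset.mem_image.1 hx
      rw [Multiset.mem_toFinset, mem_aroots]
      exact ⟨hP0, hroot g⟩
    have h2 : (P.aroots Ω).toFinset.card ≤ (Finset.univ.image a).card := by
      rw [Finset.card_image_of_injective _ hinj, Finset.card_univ, ← hPd]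
      refine (Multiset.toFinset_card_le _).trans ((card_roots' _).trans ?_)
      exact natDegree_map_le
    have h3 := Finset.eq_of_subset_of_card_le h1 h2
    intro x hx
    have h4 : x ∈ (P.aroots Ω).toFinset := by
      rw [Multiset.mem_toFinset, mem_aroots]
      exact ⟨hP0, hx⟩
    rw [← h3] at h4
    obtain ⟨g, -, h5⟩ := Finset.mem_image.1 h4
    exact ⟨g, h5⟩
  have hfd : FiniteDimensional L (IntermediateField.adjoin L {a 1}) :=
    IntermediateField.adjoin.finiteDimensional hint
  have hfr : Module.finrank L (IntermediateField.adjoin L {a 1}) = Fintype.card G := by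
    rw [IntermediateField.adjoin.finrank hint, ← hmp, hPd]
  set M := IntermediateField.adjoin L {a 1} with hM
  set γ : M := IntermediateField.AdjoinSimple.gen L (a 1) with hγ
  have hγa : (γ : Ω) = a 1 := IntermediateField.AdjoinSimple.coe_gen L (a 1)
  have hb : ∀ g, ((aeval γ (R g) : M) : Ω) = a g := by
    intro g
    rw [← IntermediateField.aeval_coe, hγa, hR, one_mul]
  have hbr : ∀ g, aeval (aeval γ (R g) : M) P = 0 := by
    intro g
    apply Subtype.ext
    rw [← IntermediateField.aeval_coe, hb, hroot]
    rfl
  -- the homomorphisms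
  let φ : G → (M →ₐ[L] M) := fun g =>
    (IntermediateField.algHomAdjoinIntegralEquiv L hint).symm ⟨aeval γ (R g), by
      rw [mem_aroots]
      exact ⟨minpoly.ne_zero hint, by rw [← hmp]; exact hbr g⟩⟩
  have hφ : ∀ g, φ g γ = aeval γ (R g) := fun g =>
    IntermediateField.algHomAdjoinIntegralEquiv_symm_apply_gen L hint _
  have hφa : ∀ g, ((φ g γ : M) : Ω) = a g := fun g => by rw [hφ, hb]
  have hext : ∀ ψ ψ' : M →ₐ[L] M, ψ γ = ψ' γ → ψ = ψ' := by
    intro ψ ψ' h
    refine IntermediateField.adjoin_algHom_ext L fun x hx => ?_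
    rw [Set.mem_singleton_iff] at hx
    subst hx
    exact h
  have hφb : ∀ g h, ((φ g (aeval γ (R h)) : M) : Ω) = a (g * h) := by
    intro g h
    rw [← aeval_algHom_apply, ← IntermediateField.aeval_coe, hφa, hR]
  let Φ : G →* (M →ₐ[L] M) :=
    { toFun := φ
      map_one' := by
        refine hext _ _ (Subtype.ext ?_)
        rw [hφa]
        exact hγa.symm
      map_mul' := by
        intro g h
        refine hext _ _ (Subtype.ext ?_)
        rw [hφa, AlgHom.mul_apply, hφ h, hφb] }
  have hbij : Function.Bijective Φ := by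
    constructor
    · intro g h hgh
      apply hinj
      rw [← hφa g, ← hφa h]
      exact congrArg (fun ψ : M →ₐ[L] M => ((ψ γ : M) : Ω)) hgh
    · intro ψ
      obtain ⟨g, hg⟩ := hroots ((ψ γ : M) : Ω) (by
        rw [IntermediateField.aeval_coe, aeval_algHom_apply]
        have h1 : aeval γ P = 0 := by
          apply Subtype.ext
          rw [← IntermediateField.aeval_coe, hγa, hroot]
          rfl
        rw [h1, map_zero]
        rfl)
      refine ⟨g, hext _ _ (Subtype.ext ?_)⟩
      exact (hφa g).trans hg
  have e : G ≃* (M ≃ₐ[L] M) :=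
    (MulEquiv.ofBijective Φ hbij).trans (algEquivEquivAlgHom L M).symm
  refine ⟨M, hfd, IsGalois.of_card_aut_eq_finrank L M ?_, ⟨e⟩⟩
  rw [hfr, ← Nat.card_eq_fintype_card]
  exact (Nat.card_congr e.toEquiv).symm

end Pool.Agent.NIPFields.RC
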