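import Pool.Agent.NIPFields.RC.Sec
import Pool.Agent.NIPFields.RC.LosA

set_option autoImplicit false

/-!
# Galois groups of an ultrapower

`φ` is an ultrafilter on `I`, and `L* = Germ φ L` is the ultrapower of the field `L`. A quotient of a
subgroup of the Galois group of a finite Galois extension of `L*` is a quotient of a subgroup of the
Galois group of a finite Galois extension of `L`.

Proof. Let `N/L*` be finite Galois with the group `G = Gal(N/L*)` of order `n`, and `N = L*(α)`
(`Field.exists_primitive_element`), `P = minpoly L* α`, monic of degree `n`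
(`IntermediateField.adjoin.finrank`, `IsGalois.card_aut_eq_finrank`). Let `Ω = AlgebraicClosure L`. The
ultrapower `Ω* = Germ φ Ω` is a field (`Filter.Germ.instField`), it is algebraically closed
(`IsAlgClosed.of_exists_root`: a monic polynomial over `Ω*` of degree `m ≥ 1` is
`X ^ m + ∑ j < m, c_j X ^ j`, with `c_j` the germ of `t ↦ c_j t`, and a root is the germ of a function
`x` such that `x t` is a root of `X ^ m + ∑ j < m, c_j t X ^ j`), and it is an algebra over `L*` by the map
`Germ.map (algebraMap L Ω)` (a ring homomorphism). So there is a homomorphism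
`ι : N → Ω*` over `L*` (`IsAlgClosed.lift`). For `g ∈ G` let `a* g = ι (g α)`, a root of `P`, and
let `R g` be a polynomial over `L*` with `g α = aeval α (R g)` (`N = L*(α)`; power basis). These are
pairwise different, and `aeval (a* g) (R h) = ι (aeval (g α) (R h)) = ι (g (aeval α (R h)))`
`= ι (g (h α)) = a* (g * h)`.

Representatives. For a polynomial `p` over `L*` choose representatives `c_j t` of its coefficients,
`j ≤ m = natDegree p`, with `c_m t = 1` for all `t` if `p` is monic, and let
`p_t = ∑ j ≤ m, C (c_j t) X ^ j`. For every `x : I → Ω` with the germ `x*` the element `aeval x* p`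
is the germ of `t ↦ aeval (x t) p_t` (`Polynomial.aeval_eq_sum_range`, the coercion of functions to
germs is a ring homomorphism). Let `a g : I → Ω` be representatives of `a* g`. For almost all `t`: the `a g t`
are pairwise different (finitely many conditions), `P_t` is monic of degree `n`,
`aeval (a g t) P_t = 0`, `aeval (a g t) (R h)_t = a (g * h) t`. Moreover for almost all `t` there is no
non-zero polynomial over `L` of degree less than `n` with the root `a 1 t`: otherwise (ultrafilter:
`Ultrafilter.eventually_not`) for almost all `t` there is a non-zero vector `c t : Fin n → L` with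
`∑ j, c t j * (a 1 t) ^ j = 0`; let `c*_j` be the germ of `t ↦ c t j`; then `∑ j, c*_j (a* 1) ^ j = 0`, so
`∑ j, c*_j α ^ j = 0` in `N` (`ι` is injective), so all `c*_j` are zero
(`degree < n = degree (minpoly L* α)`), so for almost all `t` all `c t j` are zero, contradiction.

So there is a `t` with all these properties (an eventually true statement has a witness), and
`gal_of_data` (file `LosA.lean`) gives a finite Galois extension `M` of `L` in `Ω` with `Gal(M/L) ≃* G`.
The subgroup `H` of `G` and `H → Q` are transported (`Subgroup.map`, `MulEquiv.subgroupMap`).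
-/

namespace Pool.Agent.NIPFields.RC

open Polynomial Filter

universe u

section Germ

variable {I L Ω : Type u} [Field L] [Field Ω] (φ : Ultrafilter I)

/-- The quotient map onto the ultrapower. -/
private noncomputable def lbq (K : Type u) [Field K] : (I → K) →+* Germ (φ : Filter I) K :=
  Germ.coeRingHom (φ : Filter I)

private theorem lbq_surj (K : Type u) [Field K] : Function.Surjective (lbq φ K) := by
  intro x
  induction x using Germ.inductionOn with
  | h f => exact ⟨f, rfl⟩

private theorem lbq_eq {K : Type u} [Field K] {f g : I → K} :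
    lbq φ K f = lbq φ K g ↔ ∀ᶠ t in (φ : Filter I), f t = g t := Germ.coe_eq

/-- The map between the ultrapowers. -/
private noncomputable def lbg (ρ : L →+* Ω) : Germ (φ : Filter I) L →+* Germ (φ : Filter I) Ω where
  toFun := Germ.map ρ
  map_one' := by
    change (((fun t => ρ 1 : I → Ω)) : Germ (φ : Filter I) Ω) = ((fun _ => 1 : I → Ω))
    rw [map_one]
  map_zero' := by
    change (((fun t => ρ 0 : I → Ω)) : Germ (φ : Filter I) Ω) = ((fun _ => 0 : I → Ω))
    rw [map_zero]
  map_mul' x y := by
    induction x using Germ.inductionOn with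
    | h f =>
      induction y using Germ.inductionOn with
      | h g =>
        change (((fun t => ρ (f t * g t) : I → Ω)) : Germ (φ : Filter I) Ω) =
          ((fun t => ρ (f t) * ρ (g t) : I → Ω))
        simp only [map_mul]
  map_add' x y := by
    induction x using Germ.inductionOn with
    | h f =>
      induction y using Germ.inductionOn with
      | h g =>
        change (((fun t => ρ (f t + g t) : I → Ω)) : Germ (φ : Filter I) Ω) =
          ((fun t => ρ (f t) + ρ (g t) : I → Ω))
        simp only [map_add]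

/-- Evaluation of polynomials over an ultrapower. -/
private theorem lb_ev (ρ : L →+* Ω) (P : (I → L)[X]) (x : I → Ω) :
    (P.map (lbq φ L)).eval₂ (lbg φ ρ) (lbq φ Ω x) =
      lbq φ Ω (fun t => (P.map (Pi.evalRingHom (fun _ : I => L) t)).eval₂ ρ (x t)) := by
  let h : (I → L) →+* (I → Ω) := RingHom.pi fun t => ρ.comp (Pi.evalRingHom (fun _ : I => L) t)
  have h1 : (fun t => (P.map (Pi.evalRingHom (fun _ : I => L) t)).eval₂ ρ (x t)) =
      P.eval₂ h x := by
    funext t
    rw [eval₂_map]
    have h2 := hom_eval₂ P h (Pi.evalRingHom (fun _ : I => Ω) t) x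
    have h3 : (Pi.evalRingHom (fun _ : I => Ω) t).comp h =
        ρ.comp (Pi.evalRingHom (fun _ : I => L) t) := by
      ext c
      rfl
    rw [h3] at h2
    exact h2.symm
  rw [h1, hom_eval₂, eval₂_map]
  congr 1

private theorem lb_closed [IsAlgClosed Ω] : IsAlgClosed (Germ (φ : Filter I) Ω) := by
  refine IsAlgClosed.of_exists_root _ fun p hp hirr => ?_
  obtain ⟨P, hP1, hP2, hP3⟩ := lifts_and_natDegree_eq_and_monic
    ((mem_lifts p).2 (map_surjective _ (lbq_surj φ Ω) p)) hp
  have h1 : ∀ t, ∃ x : Ω, (P.map (Pi.evalRingHom (fun _ : I => Ω) t)).eval x = 0 := by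
    intro t
    refine IsAlgClosed.exists_root _ ?_
    rw [degree_eq_natDegree (hP3.map _).ne_zero, hP3.natDegree_map, hP2]
    exact_mod_cast hirr.natDegree_pos.ne'
  choose x hx using h1
  refine ⟨lbq φ Ω x, ?_⟩
  have h2 := lb_ev φ (RingHom.id Ω) P x
  have h3 : lbg φ (RingHom.id Ω) = RingHom.id _ := by
    ext y
    induction y using Germ.inductionOn with
    | h f => rfl
  rw [h3, hP1] at h2
  rw [eval, h2]
  have h4 : (fun t => (P.map (Pi.evalRingHom (fun _ : I => Ω) t)).eval₂ (RingHom.id Ω) (x t)) =
      0 := funext fun t => hx t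
  rw [h4, map_zero]

private theorem aeval_algHom_apply_aux {K N : Type u} [Field K] [Field N] [Algebra K N]
    (g : N ≃ₐ[K] N) (x : N) (p : K[X]) : aeval (g x) p = g (aeval x p) :=
  aeval_algHom_apply g.toAlgHom x p

private theorem lb_lift {K N M : Type u} [Field K] [Field N] [Field M] [Algebra K N]
    [Algebra.IsAlgebraic K N] [IsAlgClosed M] (g : K →+* M) :
    ∃ ι : N →+* M, ι.comp (algebraMap K N) = g := by
  let _ := g.toAlgebra
  refine ⟨(IsAlgClosed.lift : N →ₐ[K] M).toRingHom, ?_⟩
  ext x
  exact AlgHom.commutes (IsAlgClosed.lift : N →ₐ[K] M) x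

end Germ

theorem Sec.of_germ {I L : Type u} [Field L] (φ : Ultrafilter I) {Q : Type} [Group Q]
    (h : Sec (Germ (φ : Filter I) L) Q) : Sec L Q := by
  obtain ⟨N, _, _, hfd, hgal, H, ψ, hψ⟩ := h
  classical
  let Ω : Type u := AlgebraicClosure L
  let ρ : L →+* Ω := algebraMap L Ω
  have hcl : IsAlgClosed (Germ (φ : Filter I) Ω) := lb_closed φ
  obtain ⟨ι, hι⟩ := lb_lift (K := Germ (φ : Filter I) L) (N := N) (lbg φ ρ)
  let pb := Field.powerBasisOfFiniteOfSeparable (Germ (φ : Filter I) L) N
  let G := N ≃ₐ[Germ (φ : Filter I) L] N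
  have hcard : Fintype.card G = pb.dim := by
    rw [← Nat.card_eq_fintype_card, IsGalois.card_aut_eq_finrank, pb.finrank]
  obtain ⟨P, hP1, hP2, hP3⟩ := lifts_and_natDegree_eq_and_monic
    ((mem_lifts _).2 (map_surjective _ (lbq_surj φ L) (minpoly (Germ (φ : Filter I) L) pb.gen)))
    (minpoly.monic pb.isIntegral_gen)
  rw [pb.natDegree_minpoly] at hP2
  have hR : ∀ g : G, ∃ r : (I → L)[X], g pb.gen = aeval pb.gen (r.map (lbq φ L)) := by
    intro g
    obtain ⟨f, hf⟩ := pb.exists_eq_aeval' (g pb.gen)
    obtain ⟨r, hr⟩ := map_surjective _ (lbq_surj φ L) f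
    exact ⟨r, by rw [hr]; exact hf⟩
  choose R hR using hR
  choose a ha using fun g : G => lbq_surj φ Ω (ι (g pb.gen))
  have hev : ∀ (g : G) (r : (I → L)[X]), ι (aeval (g pb.gen) (r.map (lbq φ L))) =
      lbq φ Ω (fun t => aeval (a g t) (r.map (Pi.evalRingHom (fun _ : I => L) t))) := by
    intro g r
    rw [aeval_def, hom_eval₂, hι, ← ha g, lb_ev]
    rfl
  -- the conditions which hold almost everywhere
  have e1 : ∀ g h : G, g ≠ h → ∀ᶠ t in (φ : Filter I), a g t ≠ a h t := by
    intro g h hgh
    rw [Ultrafilter.eventually_not]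
    intro h1
    have h2 := (lbq_eq φ).2 h1
    rw [ha, ha] at h2
    have h3 : g pb.gen = h pb.gen := ι.injective h2
    exact hgh (AlgEquiv.coe_toAlgHom_injective (pb.algHom_ext h3))
  have e2 : ∀ g : G, ∀ᶠ t in (φ : Filter I),
      aeval (a g t) (P.map (Pi.evalRingHom (fun _ : I => L) t)) = 0 := by
    intro g
    have h1 := hev g P
    rw [hP1, aeval_algHom_apply_aux g pb.gen, minpoly.aeval, map_zero, map_zero] at h1
    exact (lbq_eq φ (g := 0)).1 (by rw [map_zero]; exact h1.symm)
  have e3 : ∀ g h : G, ∀ᶠ t in (φ : Filter I),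
      aeval (a g t) ((R h).map (Pi.evalRingHom (fun _ : I => L) t)) = a (g * h) t := by
    intro g h
    refine (lbq_eq φ).1 ?_
    rw [← hev g (R h), ha, aeval_algHom_apply_aux g pb.gen, ← hR h]
    rfl
  have e4 : ∀ᶠ t in (φ : Filter I), ∀ p : L[X], p ≠ 0 → aeval (a 1 t) p = 0 →
      Fintype.card G ≤ p.natDegree := by
    by_contra hcon
    rw [← Ultrafilter.eventually_not] at hcon
    have h1 : ∀ t, ∃ p : L[X], (¬ ∀ p : L[X], p ≠ 0 → aeval (a 1 t) p = 0 →
        Fintype.card G ≤ p.natDegree) → p ≠ 0 ∧ aeval (a 1 t) p = 0 ∧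
          p.natDegree < Fintype.card G := by
      intro t
      by_cases h2 : ∀ p : L[X], p ≠ 0 → aeval (a 1 t) p = 0 → Fintype.card G ≤ p.natDegree
      · exact ⟨0, fun h3 => absurd h2 h3⟩
      · have h3 := h2
        push Not at h3
        obtain ⟨p, hp1, hp2, hp3⟩ := h3
        exact ⟨p, fun _ => ⟨hp1, hp2, hp3⟩⟩
    choose p hp using h1
    let c : ℕ → I → L := fun j t => (p t).coeff j
    let F : (I → L)[X] := ∑ j ∈ Finset.range (Fintype.card G), monomial j (c j)
    have hF : ∀ t, F.map (Pi.evalRingHom (fun _ : I => L) t) =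
        ∑ j ∈ Finset.range (Fintype.card G), monomial j ((p t).coeff j) := by
      intro t
      rw [Polynomial.map_sum]
      refine Finset.sum_congr rfl fun j _ => ?_
      rw [map_monomial]
      rfl
    have h2 : ∀ᶠ t in (φ : Filter I),
        aeval (a 1 t) (F.map (Pi.evalRingHom (fun _ : I => L) t)) = 0 := by
      filter_upwards [hcon] with t ht
      obtain ⟨-, h3, h4⟩ := hp t ht
      rw [hF t, ← as_sum_range' (p t) _ h4]
      exact h3
    have h3 : aeval pb.gen (F.map (lbq φ L)) = 0 := by
      have h4 := hev 1 F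
      have h5 := (lbq_eq φ (g := 0)).2 h2
      rw [h5, map_zero] at h4
      exact (map_eq_zero ι).1 h4
    have h4 : F.map (lbq φ L) = 0 := by
      by_contra hne
      have h5 := minpoly.degree_le_of_ne_zero (Germ (φ : Filter I) L) pb.gen hne h3
      have h6 := natDegree_le_natDegree h5
      rw [pb.natDegree_minpoly, ← hcard] at h6
      have hpos : 0 < Fintype.card G := Fintype.card_pos
      have h7 : (F.map (lbq φ L)).natDegree < Fintype.card G := by
        refine lt_of_le_of_lt natDegree_map_le ?_
        refine (natDegree_sum_le _ _).trans_lt ?_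
        rw [Finset.fold_max_lt]
        exact ⟨hpos, fun j hj => (natDegree_monomial_le _).trans_lt (Finset.mem_range.1 hj)⟩
      omega
    have h5 : ∀ j ∈ Finset.range (Fintype.card G), ∀ᶠ t in (φ : Filter I), (p t).coeff j = 0 := by
      intro j hj
      have h6 : lbq φ L (F.coeff j) = 0 := by
        rw [← coeff_map, h4, coeff_zero]
      have h7 : F.coeff j = c j := by
        rw [finsetSum_coeff, Finset.sum_eq_single j]
        · rw [coeff_monomial, if_pos rfl]
        · intro k _ hk
          rw [coeff_monomial, if_neg hk]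
        · intro h8
          exact absurd hj h8
      rw [h7] at h6
      exact (lbq_eq φ (g := 0)).1 (by rw [h6, map_zero])
    rw [← Filter.eventually_all_finset] at h5
    obtain ⟨t, ht1, ht2⟩ := (hcon.and h5).exists
    obtain ⟨h6, -, h7⟩ := hp t ht1
    refine h6 ?_
    rw [as_sum_range' (p t) _ h7]
    refine Finset.sum_eq_zero fun j hj => ?_
    rw [ht2 j hj, map_zero]
  have f1 := Filter.eventually_all.2 fun g : G => Filter.eventually_all.2 fun h : G =>
    Filter.eventually_imp_distrib_left.2 (e1 g h)
  have f2 := Filter.eventually_all.2 e2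
  have f3 := Filter.eventually_all.2 fun g : G => Filter.eventually_all.2 fun h : G => e3 g h
  obtain ⟨t, ⟨⟨h1, h2⟩, h3⟩, h4⟩ := (((f1.and f2).and f3).and e4).exists
  obtain ⟨M, hM1, hM2, ⟨e⟩⟩ := gal_of_data (L := L) (Ω := Ω) (G := G)
    (P.map (Pi.evalRingHom (fun _ : I => L) t)) (hP3.map _)
    (by rw [hP3.natDegree_map, hP2, hcard]) (fun g => a g t)
    (fun g h hgh => by
      by_contra hne
      exact h1 g h hne hgh) h2
    (fun h => (R h).map (Pi.evalRingHom (fun _ : I => L) t)) h3 h4
  refine ⟨M, inferInstance, inferInstance, hM1, hM2, H.map (e : G →* (M ≃ₐ[L] M)),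
    ψ.comp ((e.subgroupMap H).symm : H.map (e : G →* (M ≃ₐ[L] M)) →* H), fun q => ?_⟩
  obtain ⟨x, hx⟩ := hψ q
  refine ⟨e.subgroupMap H x, ?_⟩
  have h5 : (e.subgroupMap H).symm (e.subgroupMap H x) = x :=
    (e.subgroupMap H).symm_apply_apply x
  exact (congrArg ψ h5).trans hx

end Pool.Agent.NIPFields.RC
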