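import Pool.Agent.NIPFields.RC.TC
import Pool.Agent.NIPFields.RB.Crit

set_option autoImplicit false

/-!
# The ultrapower: algebraic elements and a rainbow element

`rac_germ`: let `x` be the germ of `f : Finset L → L`, a root of the non-zero polynomial `p` over `L`.
`aeval x p` is the germ of `t ↦ p.eval (f t)` (induction on `p`, or `Polynomial.aeval_eq_sum_range` and
the fact that the coercion of functions to germs is a ring homomorphism `Germ.coeRingHom`), so for
almost all `t` the element `f t` is in the finite set `p.roots.toFinset`, so by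
`Ultrafilter.eventually_exists_mem_iff` there is `a` with `f t = a` for almost all `t`, and `x` is the
image of `a` (`alg_apply`, `Germ.coe_eq`).

`exists_rainbow`: for a finite set `t` of elements of `L` let `B = t`, `C = t.erase 0`. By hypothesis
`¬ NoRainbow (TC ℓ C) B`, so there is `c t ∈ L` with `c t + b ≠ 0` for all `b ∈ t` and
`(c t + b) / (c t + b') ∉ TC ℓ (t.erase 0)` for all `b ≠ b'` in `t`. Let `c` be the germ. If
`c + b = 0` for some `b ∈ L`, then for almost all `t` `c t + b = 0`, but `b ∈ t` for almost all `t`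
(`eventually_mem b`), contradiction. Let `b ≠ b'`, `a ≠ 0` in `L` and `v` the germ of `g` with
`(c + b) / (c + b') = a * v ^ ℓ`. For almost all `t` we have `b, b', a ∈ t` and
`(c t + b) / (c t + b') = a * g t ^ ℓ`; the left side is not zero, so `g t ≠ 0` (`ℓ > 0`), so it is
`a * (g t) ^ ℓ` with `(g t) ^ ℓ ∈ Pw L ℓ` and `a ∈ t.erase 0`, so it is in `TC ℓ (t.erase 0)` by
`mem_TC_of_mul`, contradiction.
-/

namespace Pool.Agent.NIPFields.RC

open FirstOrder FirstOrder.Language FirstOrder.Ring Set Filter IsLocalRing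
open Pool.Agent.NIPFields.FI Pool.Agent.NIPFields.LG Pool.Agent.NIPFields.LV
open Pool.Agent.NIPFields.RB

universe u

attribute [local instance] germAlg

theorem rac_germ {L : Type u} [Field L] (x : Germ (UF L : Filter (Finset L)) L)
    (hx : IsAlgebraic L x) :
    ∃ a : L, algebraMap L (Germ (UF L : Filter (Finset L)) L) a = x := by
  classical
  induction x using Germ.inductionOn with | _ f
  obtain ⟨p, hp, hpx⟩ := hx
  have h1 : ∀ q : Polynomial L,
      Polynomial.aeval (↑f : Germ (UF L : Filter (Finset L)) L) q =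
        ((fun t => q.eval (f t) : Finset L → L) : Germ (UF L : Filter (Finset L)) L) := by
    intro q
    induction q using Polynomial.induction_on' with
    | add q r hq hr =>
      rw [map_add, hq, hr, ← Germ.coe_add]
      congr 1
      funext t
      rw [Pi.add_apply, Polynomial.eval_add]
    | monomial n a =>
      rw [Polynomial.aeval_monomial, alg_apply, ← Germ.coe_pow, ← Germ.coe_mul]
      congr 1
      funext t
      rw [Pi.mul_apply, Pi.pow_apply, Polynomial.eval_monomial]
  rw [h1, ← Germ.coe_zero, Germ.coe_eq] at hpx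
  have h2 : ∀ᶠ t in (UF L : Filter (Finset L)), ∃ a ∈ (p.roots.toFinset : Set L), f t = a := by
    filter_upwards [hpx] with t ht
    refine ⟨f t, ?_, rfl⟩
    rw [Finset.mem_coe, Multiset.mem_toFinset, Polynomial.mem_roots hp]
    exact ht
  rw [Ultrafilter.eventually_exists_mem_iff (Finset.finite_toSet _)] at h2
  obtain ⟨a, -, ha⟩ := h2
  refine ⟨a, ?_⟩
  rw [alg_apply, Germ.coe_eq]
  filter_upwards [ha] with t ht
  exact ht.symm

theorem exists_rainbow {L : Type u} [Field L] {ℓ : ℕ} (hℓ : 0 < ℓ)
    (h : ∀ B C : Finset L, (∀ g ∈ C, g ≠ 0) → ¬ NoRainbow (TC ℓ C) B) :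
    ∃ c : Germ (UF L : Filter (Finset L)) L,
      (∀ b : L, c + algebraMap L (Germ (UF L : Filter (Finset L)) L) b ≠ 0) ∧
      ∀ b b' : L, b ≠ b' → ∀ a : L, a ≠ 0 → ∀ v : Germ (UF L : Filter (Finset L)) L,
        (c + algebraMap L (Germ (UF L : Filter (Finset L)) L) b) /
          (c + algebraMap L (Germ (UF L : Filter (Finset L)) L) b') ≠
          algebraMap L (Germ (UF L : Filter (Finset L)) L) a * v ^ ℓ := by
  classical
  have h1 : ∀ t : Finset L, ∃ c : L, (∀ b ∈ t, c + b ≠ 0) ∧ ∀ b ∈ t, ∀ b' ∈ t, b ≠ b' →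
      (c + b) / (c + b') ∉ TC ℓ (t.erase 0) := by
    intro t
    have h2 := h t (t.erase 0) fun g hg => (Finset.mem_erase.1 hg).1
    unfold NoRainbow at h2
    push Not at h2
    exact h2
  choose f hf hf' using h1
  refine ⟨(↑f : Germ (UF L : Filter (Finset L)) L), ?_, ?_⟩
  · intro b h2
    have h4 : (↑f + algebraMap L (Germ (UF L : Filter (Finset L)) L) b) =
        ((fun t => f t + b : Finset L → L) : Germ (UF L : Filter (Finset L)) L) := rfl
    rw [h4, ← Germ.coe_zero, Germ.coe_eq] at h2
    obtain ⟨t, h5, h6⟩ := (h2.and (eventually_mem b)).exists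
    exact hf t b h6 h5
  · intro b b' hbb a ha v h2
    induction v using Germ.inductionOn with | _ g
    have h4 : (↑f + algebraMap L (Germ (UF L : Filter (Finset L)) L) b) /
        (↑f + algebraMap L (Germ (UF L : Filter (Finset L)) L) b') =
        ((fun t => (f t + b) / (f t + b') : Finset L → L) :
          Germ (UF L : Filter (Finset L)) L) := rfl
    have h5 : algebraMap L (Germ (UF L : Filter (Finset L)) L) a *
        (↑g : Germ (UF L : Filter (Finset L)) L) ^ ℓ =
        ((fun t => a * g t ^ ℓ : Finset L → L) : Germ (UF L : Filter (Finset L)) L) := by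
      rw [alg_apply, ← Germ.coe_pow, ← Germ.coe_mul]
      rfl
    rw [h4, h5, Germ.coe_eq] at h2
    obtain ⟨t, h6, h7, h8, h9⟩ := (h2.and ((eventually_mem b).and
      ((eventually_mem b').and (eventually_mem a)))).exists
    have h6' : (f t + b) / (f t + b') = a * g t ^ ℓ := h6
    have h10 : (f t + b) / (f t + b') ≠ 0 := div_ne_zero (hf t b h7) (hf t b' h8)
    have h11 : g t ≠ 0 := by
      intro h0
      rw [h6', h0, zero_pow hℓ.ne', mul_zero] at h10
      exact h10 rfl
    apply hf' t b h7 b' h8 hbb
    rw [h6']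
    exact mem_TC_of_mul hℓ (fun g hg => (Finset.mem_erase.1 hg).1)
      (Finset.mem_erase.2 ⟨ha, h9⟩) ⟨g t, h11, rfl⟩

end Pool.Agent.NIPFields.RC
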