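import Pool.Agent.NIPFields.RC.SecCos
import Pool.Agent.NIPFields.RC.Rac
import Pool.Agent.NIPFields.RC.LosB

set_option autoImplicit false

/-!
# Fields whose Galois group has no section isomorphic to a finite `ℓ`-group
-/

namespace Pool.Agent.NIPFields.RC

open FirstOrder FirstOrder.Language FirstOrder.Ring Set Filter IsLocalRing
open Pool.Agent.NIPFields.FI Pool.Agent.NIPFields.LG Pool.Agent.NIPFields.LV
open Pool.Agent.NIPFields.RB

universe u

attribute [local instance] germAlg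

theorem exists_noRainbow_of_not_sec {L : Type u} [Field L] [CharZero L] {ℓ : ℕ} (hℓ : ℓ.Prime)
    {ζ : L} (hζ : IsPrimitiveRoot ζ ℓ) {Q : Type} [Group Q] [Finite Q] (hQ : IsPGroup ℓ Q)
    (hno : ¬ Sec L Q) :
    ∃ B C : Finset L, (∀ g ∈ C, g ≠ 0) ∧ NoRainbow (TC ℓ C) B := by
  by_contra hcon
  push Not at hcon
  obtain ⟨c, hc0, hc⟩ := exists_rainbow hℓ.pos hcon
  exact hno (Sec.of_germ (UF L) (sec_of_cosets hℓ hζ rac_germ hc0 hc hQ))

end Pool.Agent.NIPFields.RC
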