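import Pool.Agent.NIPFields.RC.Sec

set_option autoImplicit false

/-!
# A Galois group over a finite extension is a quotient of a subgroup (characteristic zero)

Proof. Let `E/K` be finite and `M/E` finite Galois with group `Q`. Make `M` a `K`-algebra (tower
`K → E → M`). Let `N` be the normal closure of `M` over `K`
(`normalClosure K M (AlgebraicClosure M)`, a finite normal extension of `K`
`normalClosure.is_finiteDimensional`, `normalClosure.normal`, with the algebra structure
`normalClosure.algebra` over `M` and the tower `K → M → N`); it is Galois over `K` because of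
characteristic zero (`Algebra.IsAlgebraic.isSeparable_of_perfectField`, `IsGalois.mk`). As an
algebra over `E` (via `M`) it is normal over `E` (`Normal.tower_top_of_normal K E N`). The homomorphism
`r : (N ≃ₐ[E] N) →* (M ≃ₐ[E] M)`, `AlgEquiv.restrictNormalHom M`, is surjective
(`AlgEquiv.restrictNormalHom_surjective`). The homomorphism
`s : (N ≃ₐ[E] N) →* (N ≃ₐ[K] N)` (`AlgEquiv.restrictScalars K`; `AlgEquiv.restrictScalarsHom K`) is
injective (`AlgEquiv.restrictScalars_injective`). Let `H = s.range`; `N ≃ₐ[E] N` is isomorphic to `H`
(`MonoidHom.ofInjective`), and the composition of the inverse, of `r`, and of `(M ≃ₐ[E] M) ≃* Q` is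
onto. (The universe: `normalClosure K M (AlgebraicClosure M)` is an intermediate field of
`AlgebraicClosure M : Type u`.)
-/

namespace Pool.Agent.NIPFields.RC

universe u

theorem SecF.sec {K : Type u} [Field K] [CharZero K] {Q : Type} [Group Q] (h : SecF K Q) :
    Sec K Q := by
  obtain ⟨E, _, _, hKE, M, _, _, hEM, hgal, ⟨e⟩⟩ := h
  let _ : Algebra K M := ((algebraMap E M).comp (algebraMap K E)).toAlgebra
  have : IsScalarTower K E M := IsScalarTower.of_algebraMap_eq fun _ => rfl
  have : FiniteDimensional K M := FiniteDimensional.trans K E M
  have : Algebra.IsAlgebraic K (AlgebraicClosure M) :=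
    Algebra.IsAlgebraic.trans K M (AlgebraicClosure M)
  have : IsAlgClosure K (AlgebraicClosure M) := ⟨inferInstance, inferInstance⟩
  have : Normal K (AlgebraicClosure M) := IsAlgClosure.normal K (AlgebraicClosure M)
  let N := IntermediateField.normalClosure K M (AlgebraicClosure M)
  have hN : Normal K N := normalClosure.normal K M (AlgebraicClosure M)
  have hfin : FiniteDimensional K N := normalClosure.is_finiteDimensional K M (AlgebraicClosure M)
  have hsep : Algebra.IsSeparable K N := inferInstance
  have hG : IsGalois K N := ⟨⟩
  let _ : Algebra E N := ((algebraMap M N).comp (algebraMap E M)).toAlgebra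
  have : IsScalarTower E M N := IsScalarTower.of_algebraMap_eq fun _ => rfl
  have : IsScalarTower K M N := inferInstance
  have hKEN : IsScalarTower K E N := IsScalarTower.of_algebraMap_eq fun x => by
    rw [IsScalarTower.algebraMap_apply K M N, IsScalarTower.algebraMap_apply K E M]
    rfl
  have hNE : Normal E N := Normal.tower_top_of_normal K E N
  have hr := AlgEquiv.restrictNormalHom_surjective (F := E) (K₁ := M) N
  have hs : Function.Injective (AlgEquiv.restrictScalarsHom K : (N ≃ₐ[E] N) →* (N ≃ₐ[K] N)) :=
    AlgEquiv.restrictScalars_injective K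
  refine ⟨N, inferInstance, inferInstance, hfin, hG,
    (AlgEquiv.restrictScalarsHom K : (N ≃ₐ[E] N) →* (N ≃ₐ[K] N)).range,
    e.symm.toMonoidHom.comp ((AlgEquiv.restrictNormalHom M).comp
      (MonoidHom.ofInjective hs).symm.toMonoidHom), ?_⟩
  exact e.symm.surjective.comp (hr.comp (MonoidHom.ofInjective hs).symm.surjective)

end Pool.Agent.NIPFields.RC
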