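import Pool.Agent.NIPFields.RC.Sec

set_option autoImplicit false

/-!
# A quotient of a subgroup is a Galois group over a finite extension

Proof. Let `N`, `H ≤ Gal(N/K)` and `φ : H → Q` be given. Let `E = IntermediateField.fixedField H`
(an intermediate field of `N/K`; finite over `K`), `Gal(N/E) ≃* E.fixingSubgroup = H`
(`IntermediateField.fixingSubgroupEquiv`, `IntermediateField.fixingSubgroup_fixedField`; `N/E` is Galois
`IsGalois.tower_top_intermediateField`). So there is a surjective homomorphism
`ψ : Gal(N/E) → Q`. Let `M = IntermediateField.fixedField ψ.ker`, an intermediate field of `N/E`. Then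
`M/E` is Galois (`IsGalois.of_fixedField_normal_subgroup ψ.ker`) and
`IsGalois.normalAutEquivQuotient ψ.ker : Gal(N/E) ⧸ ψ.ker ≃* Gal(M/E)`, and
`QuotientGroup.quotientKerEquivOfSurjective`. The end of the proof of `RB.exists_galois` (file
`RB/GalX.lean`) is the same argument.
-/

namespace Pool.Agent.NIPFields.RC

universe u

theorem Sec.secF {K : Type u} [Field K] {Q : Type} [Group Q] (h : Sec K Q) : SecF K Q := by
  obtain ⟨N, _, _, hfin, hgal, H, φ, hφ⟩ := h
  let E : IntermediateField K N := IntermediateField.fixedField H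
  have : IsGalois E N := IsGalois.tower_top_intermediateField E
  have : FiniteDimensional E N := FiniteDimensional.right K E N
  let e0 : H ≃* (N ≃ₐ[E] N) :=
    (MulEquiv.subgroupCongr (IntermediateField.fixingSubgroup_fixedField H).symm).trans
      (IntermediateField.fixingSubgroupEquiv _)
  let ψ : (N ≃ₐ[E] N) →* Q := φ.comp e0.symm.toMonoidHom
  have hψ : Function.Surjective ψ := hφ.comp e0.symm.surjective
  let e1 : (N ≃ₐ[E] N) ⧸ ψ.ker ≃* Q := QuotientGroup.quotientKerEquivOfSurjective ψ hψ
  let M : IntermediateField E N := IntermediateField.fixedField ψ.ker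
  have : IsGalois E M := IsGalois.of_fixedField_normal_subgroup ψ.ker
  let e2 : (N ≃ₐ[E] N) ⧸ ψ.ker ≃* (M ≃ₐ[E] M) := IsGalois.normalAutEquivQuotient ψ.ker
  exact ⟨E, inferInstance, inferInstance, inferInstance, M, inferInstance, inferInstance,
    inferInstance, inferInstance, ⟨e1.symm.trans e2⟩⟩

end Pool.Agent.NIPFields.RC
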