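import Pool.Agent.NIPFields.RC.Sec

set_option autoImplicit false

/-!
# Sections of the Galois group of a residue field

`U` is a valuation ring of the field `L` of characteristic zero. A quotient of a subgroup of the Galois
group of a finite Galois extension of the residue field is a quotient of a subgroup of the Galois group
of a finite Galois extension of `L`.

Proof. Let `κ = ResidueField U`, `N/κ` finite Galois, `H ≤ Gal(N/κ)`, `φ : H → Q` onto. There is
`α` with `N = κ(α)` (`Field.exists_primitive_element`); let `g = minpoly κ α`, monic, split in `N`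
(`N/κ` is normal). Lift `g` to a monic polynomial `G` over `U` with the same degree
(`Polynomial.lifts_and_natDegree_eq_and_monic`, `IsLocalRing.residue_surjective`;
`Polynomial.mem_lifts`/`Polynomial.lifts_iff_coeff_lifts`). Let `M` be the splitting field of the image of
`G` over `L` (`Polynomial.SplittingField`, in `Type u`), `M/L` is finite Galois (characteristic zero). Let
`R = integralClosure U M` and let `𝔔` be a maximal ideal of `R` over the maximal ideal `𝔪` of `U`
(`Ideal.exists_ideal_over_maximal_of_isIntegral` or `Ideal.exists_maximal_ideal_liesOver_of_isIntegral`).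
The group `Gal(M/L)` acts on `R` (`IsIntegralClosure.MulSemiringAction U L M R`) and
`Algebra.IsInvariant U R Gal(M/L)` (`Algebra.isInvariant_of_isGalois U L M R`). By
`Ideal.Quotient.stabilizerHom_surjective` the homomorphism
`Ideal.Quotient.stabilizerHom 𝔔 𝔪 Gal(M/L) : stabilizer → ((R ⧸ 𝔔) ≃ₐ[U ⧸ 𝔪] (R ⧸ 𝔔))` is onto, and
`Ideal.Quotient.normal` says that the field `Λ = R ⧸ 𝔔` is normal over `U ⧸ 𝔪` (`= κ`). The
polynomial `G` splits over `R`: its roots in `M` are integral over `U`, so `G` is a product of
`X - r`, `r ∈ R`, and `g` splits in `Λ`. So there is a homomorphism `j : N → Λ` over `κ`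
(`N` is generated by the root `α` of `g`, whose minimal polynomial over `κ` splits in `Λ`:
`IntermediateField.algHomOfSplits` or `Polynomial.IsSplittingField.lift` (`N` is a splitting field of
`g`)). With the algebra structure of `j`, the restriction
`(Λ ≃ₐ[κ] Λ) → (N ≃ₐ[κ] N)` is onto (`AlgEquiv.restrictNormalHom_surjective`). So we have a
homomorphism `ρ` from the subgroup `S = stabilizer` of `Gal(M/L)` onto `Gal(N/κ)`. Take the subgroup
`H' = (H.comap ρ).map S.subtype` of `Gal(M/L)`; `H.comap ρ → H → Q` is onto.

The instances: make `Λ` an algebra over `κ` with `κ = U ⧸ 𝔪` (`IsLocalRing.ResidueField U` is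
definitionally `U ⧸ maximalIdeal U`).
-/

namespace Pool.Agent.NIPFields.RC

open IsLocalRing

universe u

open Polynomial IntermediateField in
/-- If `N` embeds in the normal extension `Λ`, then the group of `Λ` maps onto the group of `N`. -/
private theorem surj_of_splits {κ N Λ : Type u} [Field κ] [Field N] [Field Λ] [Algebra κ N]
    [Algebra κ Λ] [FiniteDimensional κ N] [Normal κ N] [Normal κ Λ] {α : N}
    (hα : κ⟮α⟯ = ⊤) (hs : ((minpoly κ α).map (algebraMap κ Λ)).Splits) :
    ∃ ρ : (Λ ≃ₐ[κ] Λ) →* (N ≃ₐ[κ] N), Function.Surjective ρ := by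
  obtain ⟨j⟩ : Nonempty (N →ₐ[κ] Λ) := by
    refine nonempty_algHom_of_adjoin_splits (S := {α}) (fun s hs' => ?_) hα
    rw [Set.mem_singleton_iff] at hs'
    subst hs'
    exact ⟨IsIntegral.of_finite κ s, hs⟩
  let _ : Algebra N Λ := j.toRingHom.toAlgebra
  have _ : IsScalarTower κ N Λ := IsScalarTower.of_algebraMap_eq fun x => (j.commutes x).symm
  exact ⟨AlgEquiv.restrictNormalHom N, AlgEquiv.restrictNormalHom_surjective Λ⟩

open Polynomial Pointwise in
private theorem aux {L : Type u} [Field L] [CharZero L] (U : ValuationSubring L) (N : Type u)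
    [Field N] [Algebra (ResidueField U) N] [FiniteDimensional (ResidueField U) N]
    [IsGalois (ResidueField U) N] :
    ∃ (M : Type u) (_ : Field M) (_ : Algebra L M), FiniteDimensional L M ∧ IsGalois L M ∧
      ∃ (S : Subgroup (M ≃ₐ[L] M)) (ρ : S →* (N ≃ₐ[ResidueField U] N)),
        Function.Surjective ρ := by
  obtain ⟨α, hα⟩ := Field.exists_primitive_element (ResidueField U) N
  obtain ⟨G, hG1, -, hG2⟩ := lifts_and_natDegree_eq_and_monic (f := residue U)
    (p := minpoly (ResidueField U) α)
    ((mem_lifts _).2 (map_surjective _ residue_surjective _))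
    (minpoly.monic (IsIntegral.of_finite _ α))
  let P : L[X] := G.map (algebraMap U L)
  let M : Type u := P.SplittingField
  have hP0 : P ≠ 0 := (hG2.map _).ne_zero
  have hfd : FiniteDimensional L M := inferInstance
  have hn : Normal L M := Normal.of_isSplittingField P
  have hgal : IsGalois L M := ⟨⟩
  let R := integralClosure U M
  have hfr : IsFractionRing R M := integralClosure.isFractionRing_of_finite_extension L M
  have hint : Algebra.IsIntegral U R := IsIntegralClosure.isIntegral_algebra U M
  have hinjUM : Function.Injective (algebraMap U M) := by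
    rw [IsScalarTower.algebraMap_eq U L M]
    exact (algebraMap L M).injective.comp Subtype.val_injective
  have hinjRM : Function.Injective (algebraMap R M) := Subtype.val_injective
  have hff : FaithfulSMul U R := by
    rw [faithfulSMul_iff_algebraMap_injective]
    intro x y hxy
    exact hinjUM (congrArg (algebraMap R M) hxy)
  let _ : MulSemiringAction (M ≃ₐ[L] M) R := IsIntegralClosure.MulSemiringAction U L M R
  have hcomm : SMulCommClass (M ≃ₐ[L] M) U R := ⟨fun g a x => by
    change galRestrict U L M R g (a • x) = a • galRestrict U L M R g x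
    exact map_smul _ _ _⟩
  have hinv : Algebra.IsInvariant U R (M ≃ₐ[L] M) := Algebra.isInvariant_of_isGalois U L M R
  obtain ⟨𝔔, hQ1, hQ2⟩ := Ideal.exists_maximal_ideal_liesOver_of_isIntegral (S := R)
    (maximalIdeal U)
  let _ : Field (R ⧸ 𝔔) := Ideal.Quotient.field 𝔔
  let alg : Algebra (U ⧸ maximalIdeal U) (R ⧸ 𝔔) := inferInstance
  let _ : Algebra (ResidueField U) (R ⧸ 𝔔) := alg
  have hnorm : Normal (ResidueField U) (R ⧸ 𝔔) :=
    Ideal.Quotient.normal (M ≃ₐ[L] M) (maximalIdeal U) 𝔔
  -- the polynomial splits over `R`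
  have hsM : (G.map (algebraMap U M)).Splits := by
    have h1 := SplittingField.splits P
    have h2 : P.map (algebraMap L M) = G.map (algebraMap U M) := by
      rw [IsScalarTower.algebraMap_eq U L M, ← Polynomial.map_map]
    rw [← h2]
    exact h1
  have hsR : (G.map (algebraMap U R)).Splits := by
    have h1 : (G.map (algebraMap U R)).map (algebraMap R M) = G.map (algebraMap U M) := by
      rw [Polynomial.map_map]
      rfl
    refine Splits.of_splits_map_of_injective hinjRM (by rw [h1]; exact hsM) ?_
    intro a ha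
    rw [h1] at ha
    have h2 : IsIntegral U a := ⟨G, hG2, by
      have := (mem_roots'.1 ha).2
      rwa [IsRoot, eval_map] at this⟩
    exact ⟨⟨a, h2⟩, rfl⟩
  have hsQ : ((minpoly (ResidueField U) α).map (algebraMap (ResidueField U) (R ⧸ 𝔔))).Splits := by
    have h1 := hsR.map (Ideal.Quotient.mk 𝔔)
    rw [← hG1]
    rw [Polynomial.map_map] at h1 ⊢
    exact h1
  obtain ⟨ρ, hρ⟩ := surj_of_splits hα hsQ
  refine ⟨M, inferInstance, inferInstance, hfd, hgal, MulAction.stabilizer (M ≃ₐ[L] M) 𝔔,
    ρ.comp (Ideal.Quotient.stabilizerHom 𝔔 (maximalIdeal U) (M ≃ₐ[L] M)), ?_⟩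
  exact hρ.comp (Ideal.Quotient.stabilizerHom_surjective (M ≃ₐ[L] M) (maximalIdeal U) 𝔔)

theorem Sec.of_residueField {L : Type u} [Field L] [CharZero L] (U : ValuationSubring L)
    {Q : Type} [Group Q] (h : Sec (ResidueField U) Q) : Sec L Q := by
  obtain ⟨N, _, _, hfd, hgal, H, φ, hφ⟩ := h
  obtain ⟨M, _, _, h1, h2, S, ρ, hρ⟩ := aux U N
  refine ⟨M, inferInstance, inferInstance, h1, h2, (H.comap ρ).map S.subtype,
    (φ.comp (ρ.subgroupComap H)).comp
      ((H.comap ρ).equivMapOfInjective S.subtype S.subtype_injective).symm.toMonoidHom, ?_⟩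
  exact (hφ.comp (MonoidHom.subgroupComap_surjective_of_surjective ρ H hρ)).comp
    (MulEquiv.surjective _)

end Pool.Agent.NIPFields.RC
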