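import Pool.Agent.NIPFields.RC.IncompC
import Pool.Agent.NIPFields.RC.MainC
import Pool.Agent.NIPFields.RC.SecA
import Pool.Agent.NIPFields.RC.SecB
import Pool.Agent.NIPFields.RC.SecRes

set_option autoImplicit false

/-!
# Theorem S in characteristic zero
-/

namespace Pool.Agent.NIPFields.RC

open FirstOrder FirstOrder.Language FirstOrder.Ring Set IsLocalRing Filter Polynomial
open Pool.Agent.NIPFields.LC Pool.Agent.NIPFields.LG Pool.Agent.NIPFields.FI
open Pool.Agent.NIPFields.LZ Pool.Agent.NIPFields.RB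

universe u

attribute [local instance] germAlg

theorem not_sec_of_finite {K : Type u} [Field K] {Q : Type} [Group Q]
    (hK : ¬ SecF K Q) {L : Type u} [Field L] [Algebra K L] [FiniteDimensional K L] :
    ¬ Sec L Q := fun h => hK h.secF.of_finite

/-- Definable valuation rings are henselian in characteristic zero, if a finite `ℓ`-group is not a
section of the Galois group. -/
theorem henselian_of_not_secF {K : Type u} [Field K] [CompatibleRing K] (hK : NIP K)
    [CharZero K] {ℓ : ℕ} (hℓ : ℓ.Prime) {Q : Type} [Group Q] [Finite Q] (hQ : IsPGroup ℓ Q)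
    (hno : ¬ SecF K Q) {O : ValuationSubring K}
    (hO : (univ : Set K).Definable₁ Language.ring {x | x ∈ O}) :
    HenselianLocalRing O := by
  classical
  by_contra hnh
  obtain ⟨L, _, _, _, hsplit, O₁, O₂, h₁, h₂, hd₁, hd₂⟩ :=
    exists_incomparable_of_not_henselian hO hnh (cyclotomic ℓ K) (cyclotomic_ne_zero ℓ K)
  have hL0 : CharZero L := charZero_of_injective_algebraMap (algebraMap K L).injective
  obtain ⟨p, hp⟩ := CharP.exists (ResidueField (O₁ ⊔ O₂ : ValuationSubring L))
  rcases CharP.char_is_prime_or_zero (ResidueField (O₁ ⊔ O₂ : ValuationSubring L)) p with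
    hpp | rfl
  · exact no_incomparable_charP hK O₁ O₂ h₁ h₂ hd₁ hd₂ p hpp hp
  have h0 : CharZero (ResidueField (O₁ ⊔ O₂ : ValuationSubring L)) :=
    CharP.charP_to_charZero _
  have hm0 : (ℓ : ResidueField (O₁ ⊔ O₂ : ValuationSubring L)) ≠ 0 :=
    Nat.cast_ne_zero.2 hℓ.ne_zero
  -- the root of unity
  rw [map_cyclotomic] at hsplit
  have hdeg : (cyclotomic ℓ L).degree ≠ 0 := by
    have h1 := degree_cyclotomic_pos ℓ L hℓ.pos
    exact h1.ne'
  obtain ⟨ζ, hζ⟩ := hsplit.exists_eval_eq_zero hdeg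
  have hζU : ζ ∈ (O₁ ⊔ O₂ : ValuationSubring L) := by
    have h1 : IsIntegral (O₁ ⊔ O₂ : ValuationSubring L) ζ := by
      refine ⟨cyclotomic ℓ _, cyclotomic.monic ℓ _, ?_⟩
      rw [eval₂_eq_eval_map, map_cyclotomic]
      exact hζ
    obtain ⟨z, hz⟩ := IsIntegrallyClosed.isIntegral_iff.1 h1
    rw [← hz]
    exact z.2
  have hζ' : IsPrimitiveRoot (residue (O₁ ⊔ O₂ : ValuationSubring L) ⟨ζ, hζU⟩) ℓ := by
    have hne : NeZero (ℓ : ResidueField (O₁ ⊔ O₂ : ValuationSubring L)) := ⟨hm0⟩
    rw [← isRoot_cyclotomic_iff, IsRoot.def, ← map_cyclotomic ℓ (residue _), eval_map,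
      eval₂_hom]
    have h2 : eval (⟨ζ, hζU⟩ : (O₁ ⊔ O₂ : ValuationSubring L)) (cyclotomic ℓ _) = 0 := by
      apply Subtype.ext
      have h3 := eval_map_algebraMap (B := L) (cyclotomic ℓ (O₁ ⊔ O₂ : ValuationSubring L))
        (algebraMap (O₁ ⊔ O₂ : ValuationSubring L) L ⟨ζ, hζU⟩)
      rw [aeval_algebraMap_apply, map_cyclotomic] at h3
      have h4 : algebraMap (O₁ ⊔ O₂ : ValuationSubring L) L ⟨ζ, hζU⟩ = ζ := rfl
      rw [h4, hζ] at h3
      exact h3.symm
    rw [h2, map_zero]
  have hnoU : ¬ Sec (ResidueField (O₁ ⊔ O₂ : ValuationSubring L)) Q := fun h =>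
    not_sec_of_finite (L := L) hno (Sec.of_residueField _ h)
  obtain ⟨B, C, hC, hB⟩ := exists_noRainbow_of_not_sec hℓ hζ' hQ hnoU
  exact no_incomparable_qC hK O₁ O₂ h₁ h₂ hd₁ hd₂ hℓ (CharZero.infinite _) hm0 hζ' hC hB

/-- In an extension of degree prime to `q` non-`q`-th powers stay non-powers. -/
private theorem root_descend {L C : Type u} [Field L] [Field C] [Algebra L C]
    [FiniteDimensional L C] {q : ℕ} (hq : q.Prime) (hco : (Module.finrank L C).Coprime q)
    {a : L} (ha : ∀ y : L, a ≠ y ^ q) (z : C) : algebraMap L C a ≠ z ^ q := by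
  intro h
  have ha0 : a ≠ 0 := by
    rintro rfl
    exact ha 0 (zero_pow hq.ne_zero).symm
  have h1 : a ^ Module.finrank L C = (Algebra.norm L z) ^ q := by
    rw [← Algebra.norm_algebraMap, h, map_pow]
  have h2 : IsCoprime ((Module.finrank L C : ℕ) : ℤ) (q : ℤ) := Nat.isCoprime_iff_coprime.2 hco
  obtain ⟨s, t, hst⟩ := h2
  refine ha ((Algebra.norm L z) ^ s * a ^ t) ?_
  have hz0 : Algebra.norm L z ≠ 0 := by
    intro h0
    rw [h0, zero_pow hq.ne_zero] at h1
    exact pow_ne_zero _ ha0 h1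
  calc a = a ^ (1 : ℤ) := (zpow_one a).symm
    _ = a ^ (s * (Module.finrank L C : ℕ) + t * (q : ℤ)) := by rw [hst]
    _ = (a ^ ((Module.finrank L C : ℕ) : ℤ)) ^ s * (a ^ t) ^ (q : ℤ) := by
        rw [zpow_add₀ ha0, mul_comm s, zpow_mul, zpow_mul]
    _ = ((Algebra.norm L z) ^ (q : ℤ)) ^ s * (a ^ t) ^ (q : ℤ) := by
        rw [zpow_natCast a, h1, zpow_natCast (Algebra.norm L z)]
    _ = (Algebra.norm L z ^ s * a ^ t) ^ q := by
        rw [← zpow_mul, mul_comm (q : ℤ) s, zpow_mul, ← mul_zpow, zpow_natCast]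

private theorem root_degree (q : ℕ) (F : Type u) [Field F] [CharZero F] (hq : q.Prime) :
    ∃ (C : Type u) (_ : Field C) (_ : Algebra F C), FiniteDimensional F C ∧
      (∃ ζ : C, IsPrimitiveRoot ζ q) ∧ (Module.finrank F C).Coprime q := by
  have hne : NeZero ((q : ℕ) : F) := ⟨Nat.cast_ne_zero.2 hq.ne_zero⟩
  have hq0 : NeZero q := ⟨hq.ne_zero⟩
  let C := CyclotomicField q F
  have hfd : FiniteDimensional F C := IsCyclotomicExtension.finiteDimensional {q} F C
  have hneC : NeZero ((q : ℕ) : C) := NeZero.nat_of_injective (algebraMap F C).injective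
  have hζ := IsCyclotomicExtension.zeta_spec q F C
  have h1 : Module.finrank F C ≤ q - 1 := by
    have h3 : Module.finrank F C =
        (minpoly F (IsCyclotomicExtension.zeta q F C)).natDegree := by
      rw [(hζ.powerBasis F).finrank, IsPrimitiveRoot.powerBasis_dim]
    rw [h3, ← Nat.totient_prime hq, ← natDegree_cyclotomic q F]
    refine natDegree_le_of_dvd (minpoly.dvd _ _ ?_) (cyclotomic_ne_zero q F)
    rw [aeval_def, ← eval_map, map_cyclotomic]
    exact hζ.isRoot_cyclotomic hq.pos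
  have hpos : 0 < Module.finrank F C := Module.finrank_pos
  have hlt : Module.finrank F C < q := by
    have h3 := hq.one_lt
    omega
  refine ⟨C, inferInstance, inferInstance, hfd, ⟨_, hζ⟩, ?_⟩
  rw [Nat.coprime_comm]
  exact (Nat.Prime.coprime_iff_not_dvd hq).2 fun h => absurd (Nat.le_of_dvd hpos h) (by omega)

/-- **Theorem S0.** A NIP field of characteristic zero with a finite extension which contains a
square root of `-1` and an element which is not an `ℓ`-th power has a definable non-trivial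
henselian valuation, if a finite `ℓ`-group is not the Galois group of any finite Galois extension of
finite extensions. -/
theorem theoremS0sec {K : Type u} [Field K] [CompatibleRing K] (hK : NIP K) [CharZero K]
    {L : Type u} [Field L] [Algebra K L] [FiniteDimensional K L] {ℓ : ℕ} (hℓ : ℓ.Prime)
    (hi : ∃ i : L, i ^ 2 = -1) (ha : ∃ a : L, ∀ y, a ≠ y ^ ℓ) {Q : Type} [Group Q] [Finite Q]
    (hQ : IsPGroup ℓ Q) (hno : ¬ SecF K Q) :
    ∃ O : ValuationSubring K, O ≠ ⊤ ∧ HenselianLocalRing O ∧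
      (univ : Set K).Definable₁ Language.ring {x | x ∈ O} := by
  have _ : Infinite K := CharZero.infinite K
  have hL0 : CharZero L := charZero_of_injective_algebraMap (algebraMap K L).injective
  -- adjoin the root of unity
  obtain ⟨M, _, _, hM, ⟨ζ, hζ⟩, hco⟩ := root_degree ℓ L hℓ
  let _ : Algebra K M := ((algebraMap L M).comp (algebraMap K L)).toAlgebra
  have htower : IsScalarTower K L M := IsScalarTower.of_algebraMap_eq fun _ => rfl
  have hMK : FiniteDimensional K M := FiniteDimensional.trans K L M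
  have hM0 : CharZero M := charZero_of_injective_algebraMap (algebraMap K M).injective
  let _ : CompatibleRing M := compatibleRingOfRing M
  have hMn : NIP M := hK.finite (Module.finBasis K M)
  have hinf : Infinite M := CharZero.infinite M
  obtain ⟨i, hi⟩ := hi
  obtain ⟨a, ha⟩ := ha
  have hiM : ∃ i : M, i ^ 2 = -1 :=
    ⟨algebraMap L M i, by rw [← map_pow, hi, map_neg, map_one]⟩
  have haM : ∃ a : M, ∀ y, a ≠ y ^ ℓ := ⟨algebraMap L M a, root_descend hℓ hco ha⟩
  obtain ⟨B, C, hC, hB⟩ := exists_noRainbow_of_not_sec hℓ hζ hQ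
    (not_sec_of_finite (L := M) hno)
  obtain ⟨O', h1, hd⟩ := exists_definable_of_noRainbowC hMn hℓ (Nat.cast_ne_zero.2 hℓ.ne_zero)
    hζ hiM haM hC hB
  obtain ⟨O, hO1, hO2⟩ := LC.exists_definable_restrict (K := K) h1 hd
  exact ⟨O, hO1, henselian_of_not_secF hK hℓ hQ hno hO2, hO2⟩

end Pool.Agent.NIPFields.RC
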