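import Pool.Agent.NIPFields.RB.NoJR

set_option autoImplicit false

/-!
# Lemma J for a larger group

The file `LV/GPrime.lean` defines, for a structure `J : JData D G P F' e`, the subset `GS ℓ P e` of the
residue field (all `u ≠ 0` such that `bb e v` is a power for the lifts `v` of `u`) and proves that it is
a group, with a bound for the number of traces. Here the same is done for a set `T` which contains the
`ℓ`-th powers and is closed under products and inverses, in place of the powers: `GT T P e`. All proofs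
are the proofs of `LV/GPrime.lean` (lemmas `Pw_congr`, `mem_GS_iff`, `GS_mul`, `GS_inv`, `GS_pow`,
`trLe_GS`) and of `RB/NoJR.lean` (lemmas `GS_div`, `NoRainbow.gs`), with `Pw k ℓ` replaced by `T`:
the element `1 + x` with `x ∈ D.I G` is in `Pw k ℓ` (`one_add_mem`), so it is in `T`.
`GT_col`: `u, u' ∈ GT` with the lifts `v, v'` (`exists_lift`) such that
`bb e v / bb e v' ∈ Pw k ℓ` have `u / u' ∈ GS ℓ P e` (`RB.GS_div`).
-/

namespace Pool.Agent.NIPFields.RC

open FirstOrder FirstOrder.Language FirstOrder.Ring Set IsLocalRing Filter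
open Pool.Agent.NIPFields.FI Pool.Agent.NIPFields.LG Pool.Agent.NIPFields.LV
open Pool.Agent.NIPFields.RB

universe u

attribute [local instance] germAlg

/-- A group which contains the `ℓ`-th powers. -/
structure PGrp {k : Type*} [Field k] (ℓ : ℕ) (T : Set k) : Prop where
  ne : ∀ x ∈ T, x ≠ 0
  pw : ∀ x ∈ Pw k ℓ, x ∈ T
  mul : ∀ x ∈ T, ∀ y ∈ T, x * y ∈ T
  inv : ∀ x ∈ T, x⁻¹ ∈ T

section

variable {K k : Type*} [Field K] [Field k] [Algebra K k] {ℓ : ℕ} {D : LD K k ℓ} {G : Finset k}
  {P : Ideal (D.E G)} {F' : Finset K} {e : D.E G} {T : Set k}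

/-- The set of all `u ≠ 0` with `bb u` in `T`. -/
def GT (T : Set k) (P : Ideal (D.E G)) [P.IsPrime] (e : D.E G) :
    Set (ResidueField (locS (D.E G) P)) :=
  {u | u ≠ 0 ∧ ∀ v : D.E G, residue (locS (D.E G) P) (toLocS v) = u →
    ((bb e v : D.E G) : k) ∈ T}

theorem T_congr (hT : PGrp ℓ T) (J : JData D G P F' e) {b b' : D.E G} (hb : (b : k) ≠ 0)
    (hb' : (b : k)⁻¹ ∈ D.E G) (hi : ((b' - b : D.E G) : k) ∈ D.I G) (h : (b : k) ∈ T) :
    (b' : k) ∈ T := by
  have h1 := D.I_le_J J.fam.one (hb' _ hi)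
  have h2 := one_add_mem h1
  have h3 : (b' : k) = b * (1 + (b : k)⁻¹ * ((b' - b : D.E G) : k)) := by
    push_cast
    field_simp
    ring
  rw [h3]
  exact hT.mul _ h _ (hT.pw _ h2)

theorem mem_GT_iff (hT : PGrp ℓ T) (J : JData D G P F' e) [P.IsPrime] {v : D.E G}
    (hv : v ∉ P) :
    residue (locS (D.E G) P) (toLocS v) ∈ GT T P e ↔ ((bb e v : D.E G) : k) ∈ T := by
  constructor
  · intro h
    exact h.2 v rfl
  · intro h
    refine ⟨fun h0 => hv (residue_toLocS.1 h0), fun w hw => ?_⟩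
    obtain ⟨h1, h2⟩ := bb_unit J hv
    exact T_congr hT J h1 h2 (bb_congr J (sub_mem_of_res hw)) h

theorem GT_one (hT : PGrp ℓ T) (J : JData D G P F' e) [P.IsPrime] :
    (1 : ResidueField (locS (D.E G) P)) ∈ GT T P e := by
  have h1 : (1 : D.E G) ∉ P := fun h => J.max.ne_top ((Ideal.eq_top_iff_one P).2 h)
  have h2 : residue (locS (D.E G) P) (toLocS (1 : D.E G)) = 1 := by
    rw [map_one, map_one]
  rw [← h2, mem_GT_iff hT J h1]
  have h3 : ((bb e (1 : D.E G) : D.E G) : k) = 1 := by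
    unfold bb
    push_cast
    ring
  rw [h3]
  exact hT.pw _ Pw_one

theorem GT_mul (hT : PGrp ℓ T) (J : JData D G P F' e) [P.IsPrime]
    {u u' : ResidueField (locS (D.E G) P)}
    (h : u ∈ GT T P e) (h' : u' ∈ GT T P e) : u * u' ∈ GT T P e := by
  obtain ⟨v, hv, hvP⟩ := exists_lift J u
  obtain ⟨v', hv', hvP'⟩ := exists_lift J u'
  have h1 := hvP h.1
  have h1' := hvP' h'.1
  have h2 : v * v' ∉ P := fun hm => (J.max.isPrime.mem_or_mem hm).elim h1 h1'
  have h3 : residue (locS (D.E G) P) (toLocS (v * v')) = u * u' := by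
    rw [map_mul, map_mul, hv, hv']
  rw [← h3, mem_GT_iff hT J h2]
  obtain ⟨a1, a2⟩ := bb_unit J h1
  obtain ⟨b1, b2⟩ := bb_unit J h1'
  have h4 : ((bb e v * bb e v' : D.E G) : k) ∈ T := by
    rw [Subring.coe_mul]
    exact hT.mul _ (h.2 v hv) _ (h'.2 v' hv')
  refine T_congr hT J (b := bb e v * bb e v') ?_ ?_ ?_ h4
  · rw [Subring.coe_mul]
    exact mul_ne_zero a1 b1
  · rw [Subring.coe_mul, mul_inv]
    exact (D.E G).mul_mem a2 b2
  · have := I_neg (bb_mul J v v')
    rwa [neg_sub] at this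

theorem GT_inv (hT : PGrp ℓ T) (J : JData D G P F' e) [P.IsPrime]
    {u : ResidueField (locS (D.E G) P)} (h : u ∈ GT T P e) : u⁻¹ ∈ GT T P e := by
  obtain ⟨v, hv, hvP⟩ := exists_lift J u
  obtain ⟨w, hw, hwP⟩ := exists_lift J u⁻¹
  have h1 := hvP h.1
  have h2 := hwP (inv_ne_zero h.1)
  rw [← hw, mem_GT_iff hT J h2]
  obtain ⟨a1, a2⟩ := bb_unit J h1
  have h3 : ((bb e w * bb e v - 1 : D.E G) : k) ∈ D.I G := by
    have e1 := bb_mul J w v
    have e2 : ((bb e (w * v) - bb e 1 : D.E G) : k) ∈ D.I G := by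
      refine bb_congr J (sub_mem_of_res (P := P) ?_)
      rw [map_mul, map_mul, hw, hv, inv_mul_cancel₀ h.1, map_one, map_one]
    have e3 := I_add e1 e2
    have e4 : bb e w * bb e v - bb e (w * v) + (bb e (w * v) - bb e 1) =
        bb e w * bb e v - 1 := by
      unfold bb; ring
    rwa [e4] at e3
  have h4 := one_add_mem (D.I_le_J J.fam.one h3)
  have h5 : ((bb e w : D.E G) : k) =
      (1 + ((bb e w * bb e v - 1 : D.E G) : k)) * ((bb e v : D.E G) : k)⁻¹ := by
    push_cast
    field_simp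
    ring
  rw [h5]
  exact hT.mul _ (hT.pw _ h4) _ (hT.inv _ (h.2 v hv))

/-- The number of traces on the residue field. -/
theorem trLe_GT (hT : PGrp ℓ T) (J : JData D G P F' e) [P.IsPrime] {f : ℕ → ℕ}
    (h : TrLe k T f) :
    TrLe (ResidueField (locS (D.E G) P)) (GT T P e) fun m => f m + m := by
  classical
  intro m b
  choose b' hb' _ using fun j => exists_lift J (b j)
  let c : Fin m → k := fun j => ((b' j * e : D.E G) : k)
  let 𝓔 : Set (Finset (Fin m)) := Set.range fun i : Fin m =>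
    Finset.univ.filter fun j => 1 + b j * (-(b i)⁻¹) ∈ GT T P e
  have hsub : {J' : Finset (Fin m) | ∃ x : ResidueField (locS (D.E G) P),
      ∀ j, (1 + b j * x ∈ GT T P e ↔ j ∈ J')} ⊆
      {J' : Finset (Fin m) | ∃ x : k, ∀ j, (1 + c j * x ∈ T ↔ j ∈ J')} ∪ 𝓔 := by
    rintro J' ⟨x, hx⟩
    by_cases h0 : ∃ i, 1 + b i * x = 0
    · right
      obtain ⟨i, hi⟩ := h0
      refine ⟨i, ?_⟩
      have hbi : b i ≠ 0 := by
        intro h1
        rw [h1, zero_mul, add_zero] at hi
        exact one_ne_zero hi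
      have hxi : x = -(b i)⁻¹ := by
        field_simp
        linear_combination hi
      ext j
      simp only [Finset.mem_filter, Finset.mem_univ, true_and]
      rw [← hxi]
      exact hx j
    · left
      push Not at h0
      obtain ⟨x', hx', _⟩ := exists_lift J x
      refine ⟨x', fun j => ?_⟩
      rw [← hx j]
      have h1 : residue (locS (D.E G) P) (toLocS (1 + b' j * x')) = 1 + b j * x := by
        rw [map_add, map_add, map_mul, map_mul, map_one, map_one, hb', hx']
      have h2 : 1 + b' j * x' ∉ P := by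
        intro h3
        apply h0 j
        rw [← h1]
        exact residue_toLocS.2 h3
      rw [← h1, mem_GT_iff hT J h2]
      have h3 : ((bb e (1 + b' j * x') : D.E G) : k) = 1 + c j * x' := by
        unfold bb
        simp only [c]
        push_cast
        ring
      rw [h3]
  refine (Set.ncard_le_ncard hsub (Set.toFinite _)).trans ((Set.ncard_union_le _ _).trans ?_)
  refine Nat.add_le_add (h m c) ?_
  have h1 : 𝓔 = (fun i : Fin m => Finset.univ.filter fun j =>
      1 + b j * (-(b i)⁻¹) ∈ GT T P e) '' Set.univ := Set.image_univ.symm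
  rw [h1]
  refine (Set.ncard_image_le (Set.toFinite _)).trans ?_
  rw [Set.ncard_univ, Nat.card_eq_fintype_card, Fintype.card_fin]

theorem GT_div (hT : PGrp ℓ T) (J : JData D G P F' e) [P.IsPrime] {v w : D.E G} (hv : v ∉ P)
    (hw : w ∉ P) (h : ((bb e v : D.E G) : k) / ((bb e w : D.E G) : k) ∈ T) :
    residue (locS (D.E G) P) (toLocS v) / residue (locS (D.E G) P) (toLocS w) ∈ GT T P e := by
  have hv0 : residue (locS (D.E G) P) (toLocS v) ≠ 0 := fun h0 => hv (residue_toLocS.1 h0)
  have hw0 : residue (locS (D.E G) P) (toLocS w) ≠ 0 := fun h0 => hw (residue_toLocS.1 h0)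
  obtain ⟨u, hu, huP⟩ := exists_lift J
    (residue (locS (D.E G) P) (toLocS v) / residue (locS (D.E G) P) (toLocS w))
  have h1 := huP (div_ne_zero hv0 hw0)
  rw [← hu, mem_GT_iff hT J h1]
  obtain ⟨a1, a2⟩ := bb_unit J hv
  obtain ⟨b1, b2⟩ := bb_unit J hw
  have h3 : ((bb e u * bb e w - bb e v : D.E G) : k) ∈ D.I G := by
    have e1 := bb_mul J u w
    have e2 : ((bb e (u * w) - bb e v : D.E G) : k) ∈ D.I G := by
      refine bb_congr J (sub_mem_of_res (P := P) ?_)
      rw [map_mul, map_mul, hu, div_mul_cancel₀ _ hw0]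
    have e3 := I_add e1 e2
    have e4 : bb e u * bb e w - bb e (u * w) + (bb e (u * w) - bb e v) =
        bb e u * bb e w - bb e v := by
      ring
    rwa [e4] at e3
  have h4 := one_add_mem (D.I_le_J J.fam.one (a2 _ h3))
  have h5 : ((bb e u : D.E G) : k) =
      (((bb e v : D.E G) : k) / ((bb e w : D.E G) : k)) *
        (1 + ((bb e v : D.E G) : k)⁻¹ * ((bb e u * bb e w - bb e v : D.E G) : k)) := by
    push_cast
    field_simp
    ring
  rw [h5]
  exact hT.mul _ h _ (hT.pw _ h4)

/-- Colours on the residue field. -/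
theorem GT_col (J : JData D G P F' e) [P.IsPrime] {N : ℕ} (col : k → Fin N)
    (hcol : ∀ x ∈ T, ∀ y ∈ T, col x = col y → x * y⁻¹ ∈ Pw k ℓ) :
    ∃ col' : ResidueField (locS (D.E G) P) → Fin N, ∀ x ∈ GT T P e, ∀ y ∈ GT T P e,
      col' x = col' y → x * y⁻¹ ∈ GS ℓ P e := by
  choose v hv hvP using exists_lift J
  refine ⟨fun u => col ((bb e (v u) : D.E G) : k), fun x hx y hy hxy => ?_⟩
  have h1 := hcol _ (hx.2 (v x) (hv x)) _ (hy.2 (v y) (hv y)) hxy
  have h2 := GS_div J (hvP x hx.1) (hvP y hy.1) (by rwa [div_eq_mul_inv])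
  rwa [hv, hv, div_eq_mul_inv] at h2

end

theorem noRainbow_GT {L : Type u} [Field L] {ℓ : ℕ} {B : Finset L}
    (D : LD L (Germ (UF L : Filter (Finset L)) L) ℓ)
    {G : Finset (Germ (UF L : Filter (Finset L)) L)} {P : Ideal (D.E G)} {F' : Finset L}
    {e : D.E G} (J : JData D G P F' e) [P.IsPrime]
    [DecidableEq (ResidueField (locS (D.E G) P))]
    [DecidableEq (Germ (UF L : Filter (Finset L)) L)]
    {T : Set (Germ (UF L : Filter (Finset L)) L)} (hT : PGrp ℓ T)
    (hB : NoRainbow T (B.image (algebraMap L (Germ (UF L : Filter (Finset L)) L)))) :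
    NoRainbow (GT T P e) (B.image fun b => IsLocalRing.residue (locS (D.E G) P)
      (toLocS ⟨algebraMap L (Germ (UF L : Filter (Finset L)) L) b, D.algebraMap_mem G b⟩)) := by
  intro c hc
  let E := Germ (UF L : Filter (Finset L)) L
  let φ : L →+* D.E G := (algebraMap L E).codRestrict (D.E G) (D.algebraMap_mem G)
  let ψ : L →+* ResidueField (locS (D.E G) P) :=
    ((IsLocalRing.residue (locS (D.E G) P)).comp toLocS).comp φ
  obtain ⟨v, hv, -⟩ := exists_lift J c
  have h1 : ∀ b ∈ B, v + φ b ∉ P := by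
    intro b hb h
    apply hc _ (Finset.mem_image_of_mem _ hb)
    rw [← hv, ← map_add, ← map_add]
    exact residue_toLocS.2 h
  have he : (e : E) ≠ 0 := by
    intro h
    apply J.e_notMem
    have : e = 0 := Subtype.ext h
    rw [this]
    exact P.zero_mem
  have h2 : ∀ b, ((bb e v : D.E G) : E) / e + algebraMap L E b =
      ((bb e (v + φ b) : D.E G) : E) / e := by
    intro b
    have h3 : ((bb e (v + φ b) : D.E G) : E) = (bb e v : D.E G) + algebraMap L E b * e := by
      have h4 : bb e (v + φ b) = bb e v + φ b * e := by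
        unfold bb; ring
      rw [h4]
      rfl
    rw [h3]
    field_simp
  obtain ⟨x, hx, x', hx', hxx, h⟩ := hB (((bb e v : D.E G) : E) / e) (by
    intro x hx
    obtain ⟨b, hb, rfl⟩ := Finset.mem_image.1 hx
    rw [h2]
    exact div_ne_zero (bb_unit J (h1 b hb)).1 he)
  obtain ⟨b, hb, rfl⟩ := Finset.mem_image.1 hx
  obtain ⟨b', hb', rfl⟩ := Finset.mem_image.1 hx'
  refine ⟨_, Finset.mem_image_of_mem _ hb, _, Finset.mem_image_of_mem _ hb', ?_, ?_⟩
  · intro h3
    apply hxx
    have h4 : ψ b = ψ b' := h3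
    rw [ψ.injective h4]
  · rw [h2, h2, div_div_div_cancel_right₀ he] at h
    rw [← hv, ← map_add, ← map_add, ← map_add, ← map_add]
    exact GT_div hT J (h1 b hb) (h1 b' hb') h

end Pool.Agent.NIPFields.RC
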