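import Pool.Agent.NIPFields.RC.TC
import Pool.Agent.NIPFields.RB.Crit

set_option autoImplicit false

/-!
# Transfer of the coset form of the rainbow condition to the ultrapower

Proof: as `NoRainbow.germ` in the file `RB/Crit.lean` (with `TC ℓ C` in place of `Pw L ℓ`). Let `R` be
the finite set of `exists_reps` for `C`. Let `c` be the germ of `f`, `c + b ≠ 0` for all `b` in the image
of `B`. For almost all `t` we have `f t + b ≠ 0` for all `b ∈ B`, so there are `b, b' ∈ B`, `b ≠ b'` with
`(f t + b) / (f t + b') ∈ TC ℓ C`, so there is `r ∈ R` with `(f t + b) / (f t + b') * r ∈ Pw L ℓ`. By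
`Ultrafilter.eventually_exists_mem_iff` for the finite set `B ×ˢ B ×ˢ R` the triple `(b, b', r)` may be
fixed. By `mem_Pw_germ` the element `(c + b) / (c + b') * r` is in `Pw` of the ultrapower. And
`r = ∏ g ∈ C, g ^ e g`, so its image is `∏ g ∈ C, (algebraMap g) ^ e g`, which is
`∏ g' ∈ C.image algebraMap, g' ^ e' g'` with `e' g' = e g` for the unique `g` with image `g'`
(`Finset.prod_image`, the algebra map is injective; `e' = Function.extend algebraMap e 0` or
`Function.invFun`).
-/

namespace Pool.Agent.NIPFields.RC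

open FirstOrder FirstOrder.Language FirstOrder.Ring Set Filter IsLocalRing
open Pool.Agent.NIPFields.FI Pool.Agent.NIPFields.LG Pool.Agent.NIPFields.LV
open Pool.Agent.NIPFields.RB

universe u

attribute [local instance] germAlg

theorem germ_TC {L : Type u} [Field L] [DecidableEq (Germ (UF L : Filter (Finset L)) L)]
    {ℓ : ℕ} (hℓ : 0 < ℓ) {B C : Finset L} (hC : ∀ g ∈ C, g ≠ 0)
    (hB : NoRainbow (TC ℓ C) B) :
    NoRainbow (TC ℓ (C.image (algebraMap L (Germ (UF L : Filter (Finset L)) L))))
      (B.image (algebraMap L (Germ (UF L : Filter (Finset L)) L))) := by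
  classical
  obtain ⟨R, -, hRe, hR⟩ := exists_reps hℓ hC
  intro c hc
  induction c using Germ.inductionOn with | _ f
  have h1 : ∀ᶠ t in (UF L : Filter (Finset L)), ∀ b ∈ B, f t + b ≠ 0 := by
    rw [Filter.eventually_all_finset]
    intro b hb
    have h2 := hc _ (Finset.mem_image_of_mem _ hb)
    rw [Ultrafilter.eventually_not]
    intro h3
    apply h2
    have h4 : (↑f + algebraMap L (Germ (UF L : Filter (Finset L)) L) b) =
        ((fun t => f t + b : Finset L → L) : Germ (UF L : Filter (Finset L)) L) := rfl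
    rw [h4, ← Germ.coe_zero, Germ.coe_eq]
    exact h3
  have h2 : ∀ᶠ t in (UF L : Filter (Finset L)),
      ∃ x ∈ ((B ×ˢ B ×ˢ R : Finset (L × L × L)) : Set (L × L × L)),
        x.1 ≠ x.2.1 ∧ (f t + x.1) / (f t + x.2.1) * x.2.2 ∈ Pw L ℓ := by
    filter_upwards [h1] with t ht
    obtain ⟨b, hb, b', hb', hne, h⟩ := hB (f t) ht
    obtain ⟨r, hr, h3⟩ := (hR _).1 h
    exact ⟨(b, b', r), Finset.mem_coe.2 (Finset.mem_product.2 ⟨hb,
      Finset.mem_product.2 ⟨hb', hr⟩⟩), hne, h3⟩
  rw [Ultrafilter.eventually_exists_mem_iff (Finset.finite_toSet _)] at h2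
  obtain ⟨⟨b, b', r⟩, hbb, h3⟩ := h2
  obtain ⟨hb, hb''⟩ := Finset.mem_product.1 (Finset.mem_coe.1 hbb)
  obtain ⟨hb', hr⟩ := Finset.mem_product.1 hb''
  refine ⟨_, Finset.mem_image_of_mem _ hb, _, Finset.mem_image_of_mem _ hb', ?_, ?_⟩
  · intro h
    obtain ⟨t, ht⟩ := h3.exists
    exact ht.1 ((algebraMap L (Germ (UF L : Filter (Finset L)) L)).injective h)
  · obtain ⟨e, he⟩ := hRe r hr
    have hinj : Function.Injective (algebraMap L (Germ (UF L : Filter (Finset L)) L)) :=
      (algebraMap L (Germ (UF L : Filter (Finset L)) L)).injective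
    refine ⟨Function.extend (algebraMap L (Germ (UF L : Filter (Finset L)) L)) e 0, ?_⟩
    have h5 : ∏ g ∈ C.image (algebraMap L (Germ (UF L : Filter (Finset L)) L)),
        g ^ Function.extend (algebraMap L (Germ (UF L : Filter (Finset L)) L)) e 0 g =
        algebraMap L (Germ (UF L : Filter (Finset L)) L) r := by
      rw [Finset.prod_image fun x _ y _ h => hinj h, he, map_prod]
      refine Finset.prod_congr rfl fun g _ => ?_
      rw [hinj.extend_apply, map_pow]
    rw [h5]
    have h4 : (↑f + algebraMap L (Germ (UF L : Filter (Finset L)) L) b) /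
        (↑f + algebraMap L (Germ (UF L : Filter (Finset L)) L) b') *
        algebraMap L (Germ (UF L : Filter (Finset L)) L) r =
        ((fun t => (f t + b) / (f t + b') * r : Finset L → L) :
          Germ (UF L : Filter (Finset L)) L) := rfl
    rw [h4, mem_Pw_germ]
    filter_upwards [h3] with t ht
    exact ht.2

end Pool.Agent.NIPFields.RC
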