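import Pool.Agent.NIPFields.RC.NoJC
import Pool.Agent.NIPFields.RB.Zero

set_option autoImplicit false

/-!
# Incomparable definable valuation rings and the coset form of the rainbow condition
-/

namespace Pool.Agent.NIPFields.RC

open FirstOrder FirstOrder.Language FirstOrder.Ring Set IsLocalRing Filter Polynomial
open Pool.Agent.NIPFields.LC Pool.Agent.NIPFields.LG Pool.Agent.NIPFields.FI
open Pool.Agent.NIPFields.LZ Pool.Agent.NIPFields.RB

universe u

attribute [local instance] germAlg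

/-- Incomparable definable valuation rings and the rainbow condition on the residue field of the
join. -/
theorem no_incomparable_qC {K : Type u} [Field K] [CompatibleRing K] (hK : NIP K) {L : Type u}
    [Field L] [Algebra K L] [FiniteDimensional K L]
    (O₁ O₂ : ValuationSubring L)
    (h₁ : ¬ O₁ ≤ O₂) (h₂ : ¬ O₂ ≤ O₁) (hd₁ : LDef₁ (Module.finBasis K L) {x | x ∈ O₁})
    (hd₂ : LDef₁ (Module.finBasis K L) {x | x ∈ O₂}) {q : ℕ} (hq : q.Prime)
    (hinf : Infinite (ResidueField (O₁ ⊔ O₂ : ValuationSubring L)))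
    (hq0 : (q : ResidueField (O₁ ⊔ O₂ : ValuationSubring L)) ≠ 0)
    {ζ : ResidueField (O₁ ⊔ O₂ : ValuationSubring L)} (hζ : IsPrimitiveRoot ζ q)
    {B C : Finset (ResidueField (O₁ ⊔ O₂ : ValuationSubring L))} (hC : ∀ g ∈ C, g ≠ 0)
    (hB : NoRainbow (TC q C) B) : False := by
  classical
  set U : ValuationSubring L := O₁ ⊔ O₂ with hU
  have hdU : LDef₁ (Module.finBasis K L) {x | x ∈ U} := ldef_sup hd₁ hd₂
  have hu₁ : O₁ ≤ U := le_sup_left
  have hu₂ : O₂ ≤ U := le_sup_right
  have hn₁ : resVal hu₁ ≠ ⊤ := resVal_ne_top hu₁ (fun h => h₂ (hu₂.trans h))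
  have hn₂ : resVal hu₂ ≠ ⊤ := resVal_ne_top hu₂ (fun h => h₁ (hu₁.trans h))
  have hsup : resVal hu₁ ⊔ resVal hu₂ = ⊤ := resVal_sup O₁ O₂
  by_cases hsq : ∃ a : ResidueField U, ∀ y, a ≠ y ^ q
  · let _ : CompatibleRing (ResidueField U) := compatibleRingOfRing (ResidueField U)
    have hNIP : NIP (ResidueField U) := nip_residue hK U hdU
    have hTL : TL (ResidueField U) q := tl_of_noRainbow hNIP hq.pos hC hB
    have D := exists_LD hNIP hq hTL hsq
    obtain ⟨V, hV, hVK, hVJ⟩ := exists_val_of_noJ hNIP hq hq0 hζ D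
      (noJ_of_noRainbowC hNIP hq.pos hC hB D)
    let A : Bool → ValuationSubring (ResidueField U) :=
      fun b => bif b then resVal hu₁ else resVal hu₂
    refine no_indep_of_val_q hq hζ (A := A) ?_ hsup D V hV hVK hVJ ?_
    · rintro (_ | _)
      · exact hn₂
      · exact hn₁
    · rintro (_ | _) F a
      · exact iq_vc q hK hd₂ hdU hu₂ F a
      · exact iq_vc q hK hd₁ hdU hu₁ F a
  · push Not at hsq
    refine LC.TT hn₁ hn₂ hsup hq.two_le hq0 hζ ?_ (vc_res hK hd₁ hd₂ hdU hu₁ hu₂ q hq0)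
    have htop : (powMonoidHom q : (ResidueField U)ˣ →* (ResidueField U)ˣ).range = ⊤ := by
      rw [eq_top_iff]
      intro z _
      obtain ⟨y, hy⟩ := hsq (z : ResidueField U)
      have hy0 : y ≠ 0 := by
        rintro rfl
        rw [zero_pow hq.ne_zero] at hy
        exact z.ne_zero hy
      refine ⟨Units.mk0 y hy0, Units.ext ?_⟩
      simp only [powMonoidHom_apply, Units.val_pow_eq_pow_val, Units.val_mk0]
      exact hy.symm
    rw [htop]
    infer_instance

end Pool.Agent.NIPFields.RC
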