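import Mathlib

set_option autoImplicit false

/-! # Elements of the compositum with the algebraic elements

`L ⊆ L' ⊆ Ω`, `Ω` is an algebraic closure of `L'`, characteristic zero. If `y ∈ Ω` is fixed by all
automorphisms over `L'` which fix the elements of `Ω` which are algebraic over `L`, then there is
a finite normal extension `E` of `L` in `Ω` such that the value of an automorphism over `L'` at
`y` depends only on its restriction to `E`.

Proof. Let `k = {x ∈ Ω : x algebraic over L}` and `k' = IntermediateField.adjoin L' k`. `Ω/L'` is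
Galois (characteristic zero; `IsGalois` from `Normal` and `Algebra.IsSeparable`). The element `y`
is fixed by `k'.fixingSubgroup`, so `y ∈ k'` (`InfiniteGalois.fixedField_fixingSubgroup`). So
there is a finite set `S ⊆ k` with `y ∈ IntermediateField.adjoin L' S`
(`IntermediateField.exists_finset_of_mem_adjoin`). Let `p = ∏ s ∈ S, minpoly L s`, a non-zero
polynomial over `L`, and `E = IntermediateField.adjoin L (p.rootSet Ω)`; it is a splitting field
of `p` over `L` (`IntermediateField.adjoin_rootSet_isSplittingField`), so it is finite-dimensional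
and normal over `L` (`Polynomial.IsSplittingField.finiteDimensional`,
`Normal.of_isSplittingField`), and `S ⊆ E`. If `σ, τ` agree on `E` then they agree on `adjoin L'
S` (`IntermediateField.adjoin_induction`), so at `y`. -/

namespace Pool.Agent.NIPFields.RC

theorem exists_stable {L L' Ω : Type*} [Field L] [Field L'] [Field Ω] [Algebra L L']
    [Algebra L' Ω] [Algebra L Ω] [IsScalarTower L L' Ω] [IsAlgClosed Ω]
    [Algebra.IsAlgebraic L' Ω] [CharZero L] {y : Ω}
    (hfix : ∀ σ : Ω ≃ₐ[L'] Ω, (∀ x : Ω, IsAlgebraic L x → σ x = x) → σ y = y) :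
    ∃ E : IntermediateField L Ω, FiniteDimensional L E ∧ Normal L E ∧
      ∀ σ τ : Ω ≃ₐ[L'] Ω, (∀ x ∈ E, σ x = τ x) → σ y = τ y := by
  classical
  have : CharZero L' := charZero_of_injective_algebraMap (algebraMap L L').injective
  have : IsAlgClosure L' Ω := ⟨inferInstance, inferInstance⟩
  have : IsGalois L' Ω := ⟨⟩
  have hy : y ∈ IntermediateField.adjoin L' {x : Ω | IsAlgebraic L x} := by
    rw [← InfiniteGalois.fixedField_fixingSubgroup
      (IntermediateField.adjoin L' {x : Ω | IsAlgebraic L x})]
    rw [IntermediateField.mem_fixedField_iff]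
    intro σ hσ
    refine hfix σ fun x hx => ?_
    rw [IntermediateField.mem_fixingSubgroup_iff] at hσ
    exact hσ x (IntermediateField.subset_adjoin L' _ hx)
  obtain ⟨S, hS, hyS⟩ := IntermediateField.exists_finset_of_mem_adjoin hy
  let p : Polynomial L := ∏ s ∈ S, minpoly L s
  have hp : p ≠ 0 := Finset.prod_ne_zero_iff.2 fun s hs =>
    minpoly.ne_zero (hS hs).isIntegral
  have hsp : (p.map (algebraMap L Ω)).Splits := IsAlgClosed.splits _
  have hsf := IntermediateField.adjoin_rootSet_isSplittingField (K := L) (L := Ω) hsp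
  refine ⟨IntermediateField.adjoin L (p.rootSet Ω),
    Polynomial.IsSplittingField.finiteDimensional _ p, Normal.of_isSplittingField p, ?_⟩
  intro σ τ h
  have hSE : ∀ s ∈ S, s ∈ IntermediateField.adjoin L (p.rootSet Ω) := by
    intro s hs
    refine IntermediateField.subset_adjoin L _ ?_
    rw [Polynomial.mem_rootSet]
    refine ⟨hp, ?_⟩
    rw [map_prod]
    exact Finset.prod_eq_zero hs (minpoly.aeval L s)
  refine IntermediateField.adjoin_induction L' (p := fun x _ => σ x = τ x) ?_ ?_ ?_ ?_ ?_ hyS
  · exact fun x hx => h x (hSE x hx)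
  · intro x
    rw [AlgEquiv.commutes, AlgEquiv.commutes]
  · intro x z _ _ hx hz
    rw [map_add, map_add, hx, hz]
  · intro x _ hx
    rw [map_inv₀, map_inv₀, hx]
  · intro x z _ _ hx hz
    rw [map_mul, map_mul, hx, hz]

end Pool.Agent.NIPFields.RC
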