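import Pool.Agent.NIPFields.RC.KumA

set_option autoImplicit false

/-!
# Powers in the compositum with the algebraic elements

`L ⊆ L' ⊆ Ω`, `Ω` is an algebraic closure of `L'`, characteristic zero, `L` contains a primitive `ℓ`-th
root of unity, `ℓ` prime, and every element of `L'` which is algebraic over `L` is in `L`. Let `w ∈ L'`,
`w ≠ 0`, `y ^ ℓ = w`, and let `y` be fixed by all automorphisms over `L'` which fix the elements of
`Ω` which are algebraic over `L`. Then `w` is the product of an element of `L` and an `ℓ`-th power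
of an element of `L'`.

Proof. Let `E` be the field of `exists_stable`. `G = (Ω ≃ₐ[L'] Ω)`. For `σ ∈ G` we have
`(σ y) ^ ℓ = w = y ^ ℓ`, so `σ y = χ σ * y` with `χ σ ∈ μ_ℓ`, a power of `ζ ∈ L`
(`IsPrimitiveRoot.eq_pow_of_pow_eq_one`); `χ σ` is (the image of) an element of `L`, so
`χ (σ τ) = χ σ * χ τ`, `χ σ ^ ℓ = 1`. By `exists_stable` the value `χ σ` depends only on the
restriction of `σ` to `E`. Let `ρ : G →* (E ≃ₐ[L] E)` be the restriction (restriction of scalars to `L`,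
then `AlgEquiv.restrictNormalHom E`), `Ḡ = ρ.range`, a finite group, and for `g ∈ Ḡ` let `χ' g = χ σ` for
any `σ` with `ρ σ = g` (choice). So `χ' (ρ σ) = χ σ` and `χ'` is multiplicative on `Ḡ`.

Independence of characters (`linearIndependent_monoidHom`, for the monoid homomorphisms
`x ↦ (g x : Ω)` from `E` to `Ω`, pairwise different for different `g ∈ Ḡ`): the coefficients
`(χ' g)⁻¹` are not zero, so there is `a ∈ E` with `z = ∑ g ∈ Ḡ, (χ' g)⁻¹ * g a ≠ 0`. The element `z`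
is in `E` (the `χ' g` are in the image of `L`), so it is algebraic over `L`. For `τ ∈ G`:
`τ z = ∑ g, (χ' g)⁻¹ * (ρ τ * g) a = ∑ h, (χ' ((ρ τ)⁻¹ * h))⁻¹ * h a = χ τ * z`
(`Fintype.sum_equiv` with `Equiv.mulLeft`). So `v = y / z` is fixed by `G`, so it is in `L'`
(`Ω/L'` is Galois: `IsGalois` and `IsGalois.mem_bot_iff_fixed`/`InfiniteGalois.mem_bot_iff_fixed`, or as
in the proof of `RB.char_ne` in the file `RB/KummerB.lean`), and `z ^ ℓ` is fixed by `G`, so it is in `L'`,
and algebraic over `L`, so it is in `L` by `hrac`: `z ^ ℓ = a`, `a ≠ 0`. Now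
`w = y ^ ℓ = z ^ ℓ * v ^ ℓ = a * v ^ ℓ`.
-/

namespace Pool.Agent.NIPFields.RC

theorem kummer_desc {L L' Ω : Type*} [Field L] [Field L'] [Field Ω] [Algebra L L']
    [Algebra L' Ω] [Algebra L Ω] [IsScalarTower L L' Ω] [IsAlgClosed Ω]
    [Algebra.IsAlgebraic L' Ω] [CharZero L] {ℓ : ℕ} (hℓ : ℓ.Prime) {ζ : L}
    (hζ : IsPrimitiveRoot ζ ℓ) (hrac : ∀ x : L', IsAlgebraic L x → ∃ a : L, algebraMap L L' a = x)
    {y : Ω} {w : L'} (hw : w ≠ 0) (hy : y ^ ℓ = algebraMap L' Ω w)
    (hfix : ∀ σ : Ω ≃ₐ[L'] Ω, (∀ x : Ω, IsAlgebraic L x → σ x = x) → σ y = y) :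
    ∃ a : L, a ≠ 0 ∧ ∃ v : L', w = algebraMap L L' a * v ^ ℓ := by
  classical
  obtain ⟨E, hfd, -, hE⟩ := exists_stable hfix
  have hinj := (algebraMap L Ω).injective
  have hw' : algebraMap L' Ω w ≠ 0 := (map_ne_zero (algebraMap L' Ω)).2 hw
  have hy0 : y ≠ 0 := by
    rintro rfl
    rw [zero_pow hℓ.ne_zero] at hy
    exact hw' hy.symm
  have hcom : ∀ (σ : Ω ≃ₐ[L'] Ω) (b : L), σ (algebraMap L Ω b) = algebraMap L Ω b := by
    intro σ b
    rw [IsScalarTower.algebraMap_apply L L' Ω, AlgEquiv.commutes]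
  -- the character
  have hχ : ∀ σ : Ω ≃ₐ[L'] Ω, ∃ c : L, c ≠ 0 ∧ c ^ ℓ = 1 ∧ σ y = algebraMap L Ω c * y := by
    intro σ
    have h1 : (σ y / y) ^ ℓ = 1 := by
      rw [div_pow, ← map_pow, hy, AlgEquiv.commutes, div_self hw']
    have h2 : IsPrimitiveRoot (algebraMap L Ω ζ) ℓ := hζ.map_of_injective hinj
    have : NeZero ℓ := ⟨hℓ.ne_zero⟩
    obtain ⟨i, -, h3⟩ := h2.eq_pow_of_pow_eq_one h1
    refine ⟨ζ ^ i, pow_ne_zero _ (hζ.ne_zero hℓ.ne_zero), ?_, ?_⟩
    · rw [← pow_mul, mul_comm, pow_mul, hζ.pow_eq_one, one_pow]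
    · rw [map_pow, h3, div_mul_cancel₀ _ hy0]
  choose c hc0 hc1 hc using hχ
  have hmul : ∀ σ τ, c (σ * τ) = c σ * c τ := by
    intro σ τ
    apply hinj
    apply mul_right_cancel₀ hy0
    rw [← hc, AlgEquiv.mul_apply, hc τ, map_mul, hcom, hc σ, map_mul]
    ring
  -- the restrictions to `E`
  let r : (Ω ≃ₐ[L'] Ω) → (E →ₐ[L] Ω) := fun σ =>
    ((σ.restrictScalars L : Ω ≃ₐ[L] Ω) : Ω →ₐ[L] Ω).comp E.val
  have hr : ∀ σ x, r σ x = σ (x : Ω) := fun _ _ => rfl
  have hdep : ∀ σ τ, r σ = r τ → c σ = c τ := by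
    intro σ τ h
    have h1 : σ y = τ y := hE σ τ fun x hx => by
      have h2 := DFunLike.congr_fun h (⟨x, hx⟩ : E)
      rwa [hr, hr] at h2
    rw [hc, hc] at h1
    exact hinj (mul_right_cancel₀ hy0 h1)
  have hfin : Finite (Set.range r) := inferInstance
  have : Fintype (Set.range r) := Fintype.ofFinite _
  choose s hs using fun t : Set.range r => t.2
  have hχ' : ∀ σ (h : r σ ∈ Set.range r), c (s ⟨r σ, h⟩) = c σ := fun σ h => hdep _ _ (hs ⟨r σ, h⟩)
  -- independence
  have hinj2 : Function.Injective fun t : Set.range r => ((t.1 : E →ₐ[L] Ω) : E →* Ω) := by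
    intro t t' h
    apply Subtype.ext
    refine AlgHom.ext fun x => ?_
    exact DFunLike.congr_fun h x
  have hli := (linearIndependent_monoidHom E Ω).comp _ hinj2
  have hex : ∃ a : E, ∑ t : Set.range r, algebraMap L Ω (c (s t))⁻¹ * (t.1 a) ≠ 0 := by
    by_contra hn
    push Not at hn
    have h1 := Fintype.linearIndependent_iff.1 hli (fun t => algebraMap L Ω (c (s t))⁻¹) (by
      funext x
      rw [Finset.sum_apply]
      exact hn x) ⟨r 1, 1, rfl⟩
    exact (map_ne_zero (algebraMap L Ω)).2 (inv_ne_zero (hc0 _)) h1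
  obtain ⟨a, ha⟩ := hex
  set z : Ω := ∑ t : Set.range r, algebraMap L Ω (c (s t))⁻¹ * (t.1 a) with hz
  have hτz : ∀ τ : Ω ≃ₐ[L'] Ω, τ z = algebraMap L Ω (c τ) * z := by
    intro τ
    have hm : ∀ t : Set.range r, r (τ * s t) = ((τ.restrictScalars L : Ω ≃ₐ[L] Ω) :
        Ω →ₐ[L] Ω).comp t.1 := by
      intro t
      rw [← hs t]
      rfl
    let m : Set.range r → Set.range r := fun t => ⟨r (τ * s t), τ * s t, rfl⟩
    have hmi : Function.Injective m := by
      intro t t' h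
      have h1 : r (τ * s t) = r (τ * s t') := congrArg Subtype.val h
      rw [hm, hm] at h1
      apply Subtype.ext
      refine AlgHom.ext fun x => ?_
      have h2 := DFunLike.congr_fun h1 x
      exact τ.injective h2
    have hmb : Function.Bijective m := Finite.injective_iff_bijective.1 hmi
    rw [hz, map_sum, Finset.mul_sum]
    refine Fintype.sum_bijective m hmb _ _ fun t => ?_
    have h3 : c (s (m t)) = c τ * c (s t) := by
      rw [← hmul]
      exact hχ' (τ * s t) _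
    have h4 : (m t).1 a = τ (t.1 a) := DFunLike.congr_fun (hm t) a
    rw [h3, h4, map_mul, hcom, mul_inv, map_mul, ← mul_assoc, ← mul_assoc, ← map_mul,
      mul_inv_cancel₀ (hc0 τ), map_one, one_mul]
  have hzalg : IsAlgebraic L z := by
    have h1 : ∀ t : Set.range r, IsAlgebraic L (algebraMap L Ω (c (s t))⁻¹ * (t.1 a)) := by
      intro t
      refine (isAlgebraic_algebraMap _).mul ?_
      have h2 : IsAlgebraic L a := Algebra.IsAlgebraic.isAlgebraic a
      exact h2.algHom t.1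
    rw [hz, ← mem_algebraicClosure_iff]
    exact sum_mem fun t _ => mem_algebraicClosure_iff.2 (h1 t)
  have : CharZero L' := charZero_of_injective_algebraMap (algebraMap L L').injective
  have : IsAlgClosure L' Ω := ⟨inferInstance, inferInstance⟩
  have hbot : ∀ x : Ω, (∀ σ : Ω ≃ₐ[L'] Ω, σ x = x) → ∃ b : L', algebraMap L' Ω b = x :=
    fun x hx => (InfiniteGalois.mem_range_algebraMap_iff_fixed x).2 hx
  obtain ⟨v, hv⟩ := hbot (y / z) fun σ => by
    rw [map_div₀, hc, hτz, mul_div_mul_left _ _ ((map_ne_zero (algebraMap L Ω)).2 (hc0 σ))]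
  obtain ⟨b, hb⟩ := hbot (z ^ ℓ) fun σ => by
    rw [map_pow, hτz, mul_pow, ← map_pow, hc1, map_one, one_mul]
  have hbalg : IsAlgebraic L b := by
    rw [← isAlgebraic_algebraMap_iff (algebraMap L' Ω).injective, hb]
    exact hzalg.pow ℓ
  obtain ⟨a', ha'⟩ := hrac b hbalg
  refine ⟨a', ?_, v, ?_⟩
  · rintro rfl
    rw [map_zero] at ha'
    rw [← ha', map_zero] at hb
    exact pow_ne_zero ℓ ha hb.symm
  · apply (algebraMap L' Ω).injective
    rw [map_mul, map_pow, hv, ha', hb, ← mul_pow, mul_div_cancel₀ _ ha, hy]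

end Pool.Agent.NIPFields.RC
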