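import Pool.Agent.NIPFields.RC.TC
import Pool.Agent.NIPFields.RB.Crit

set_option autoImplicit false

/-!
# The number of traces of the group `TC` in a NIP field

Proof: as `RB.trLe_nip` (file `RB/Crit.lean`) and `NIP.vc_lin` (file `LG/Germ.lean`), with the group
`TC ℓ C` in place of the powers. By `exists_reps` there is a finite set `R` with
`x ∈ TC ℓ C ↔ ∃ r ∈ R, x * r ∈ Pw K ℓ`. Let `e := Module.finBasis K K`. The set
`{v : (Fin 1 ⊕ Fin 1) ⊕ Fin 1 → K | v (inr 0) ≠ 0 ∧ ∃ r ∈ R,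
  (1 + v (inl (inl 0)) * v (inl (inr 0))) * r = v (inr 0) ^ ℓ}`
is `LDef e` (`LDef.iUnion` over the elements of `R` (a finite type), `LFun.eq`, `LDef.inter`,
`LDef.compl`), so by `LDef.exists` and `NIP.ldef` there is `n` such that for all `y : Fin n → K` and
`x : Finset (Fin n) → K` there are `i, J` with `¬ (1 + y i * x J ∈ TC ℓ C ↔ i ∈ J)`, and this gives
(by contradiction and `choose`, as in `NIP.vc_lin`) the hypothesis of `PQ.trLe_of_vc` with `d = n`.
Finally `d` is replaced by `n + 2` as in `RB.trLe_nip`.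
-/

namespace Pool.Agent.NIPFields.RC

open FirstOrder FirstOrder.Language FirstOrder.Ring Set Filter IsLocalRing
open Pool.Agent.NIPFields.FI Pool.Agent.NIPFields.LG Pool.Agent.NIPFields.LV

universe u

theorem trLe_TC {K : Type u} [Field K] [CompatibleRing K] (hK : NIP K) {ℓ : ℕ} (hℓ : 0 < ℓ)
    {C : Finset K} (hC : ∀ g ∈ C, g ≠ 0) :
    ∃ d : ℕ, 2 ≤ d ∧ TrLe K (TC ℓ C) fun m => ∑ k ∈ Finset.range d, m.choose k := by
  classical
  obtain ⟨R, hR0, -, hR⟩ := exists_reps hℓ hC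
  let e : Module.Basis (Fin (Module.finrank K K)) K K := Module.finBasis K K
  have h0 : LDef e {v : (Fin 1 ⊕ Fin 1) ⊕ Fin 1 → K | v (Sum.inr 0) = 0} :=
    LFun.eq (LFun.var _) (LFun.const 0)
  have h1 : ∀ r : R, LDef e {v : (Fin 1 ⊕ Fin 1) ⊕ Fin 1 → K |
      (1 + v (Sum.inl (Sum.inl 0)) * v (Sum.inl (Sum.inr 0))) * (r : K) = v (Sum.inr 0) ^ ℓ} :=
    fun r => LFun.eq (((LFun.const 1).add ((LFun.var _).mul (LFun.var _))).mul (LFun.const _))
      ((LFun.var _).pow ℓ)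
  obtain ⟨n, hn⟩ := hK.ldef (h0.compl.inter (LDef.iUnion h1)).exists
  have hvc : ∀ y : Fin n → K, ∃ J : Finset (Fin n), ∀ x : K,
      ∃ i, ¬ (1 + y i * x ∈ TC ℓ C ↔ i ∈ J) := by
    intro y
    by_contra hcon
    push Not at hcon
    choose x hx using hcon
    obtain ⟨i, J, hiJ⟩ := hn (fun i _ => y i) (fun J _ => x J)
    apply hiJ
    rw [← hx J i, hR]
    constructor
    · rintro ⟨u, hu1, hu2⟩
      obtain ⟨⟨r, hr⟩, hu3⟩ := mem_iUnion.1 hu2
      exact ⟨r, hr, u 0, hu1, hu3⟩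
    · rintro ⟨r, hr, z, hz1, hz2⟩
      exact ⟨fun _ => z, hz1, mem_iUnion.2 ⟨⟨r, hr⟩, hz2⟩⟩
  refine ⟨n + 2, by omega, fun m b => (PQ.trLe_of_vc hvc m b).trans ?_⟩
  exact Finset.sum_le_sum_of_subset (Finset.range_mono (by omega))

end Pool.Agent.NIPFields.RC
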