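import Pool.Agent.NIPFields.RC.Tls
import Pool.Agent.NIPFields.RC.TrTC
import Pool.Agent.NIPFields.RC.GermC
import Pool.Agent.NIPFields.RC.GT
import Pool.Agent.NIPFields.LU.Final

set_option autoImplicit false

/-!
# The coset form of the rainbow criterion: definable valuations
-/

namespace Pool.Agent.NIPFields.RC

open FirstOrder FirstOrder.Language FirstOrder.Ring Set Filter IsLocalRing
open Pool.Agent.NIPFields.FI Pool.Agent.NIPFields.LG Pool.Agent.NIPFields.LV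
open Pool.Agent.NIPFields.RB

universe u

attribute [local instance] germAlg

theorem pGrp_TC {F : Type*} [Field F] {ℓ : ℕ} (hℓ : 0 < ℓ) {C : Finset F}
    (hC : ∀ g ∈ C, g ≠ 0) : PGrp ℓ (TC ℓ C) where
  ne := fun _ hx => TC_ne hx
  pw := fun _ hx => Pw_subset_TC hx
  mul := fun _ hx _ hy => TC_mul hx hy
  inv := fun _ hx => TC_inv hℓ hC hx

theorem tl_of_noRainbow {L : Type u} [Field L] [Infinite L] [CompatibleRing L] (hL : NIP L)
    {ℓ : ℕ} (hℓ : 0 < ℓ) {B C : Finset L} (hC : ∀ g ∈ C, g ≠ 0) (hB : NoRainbow (TC ℓ C) B) :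
    TL L ℓ := by
  obtain ⟨d, hd, hTr⟩ := trLe_TC hL hℓ hC
  obtain ⟨N, col, hcol⟩ := exists_col hℓ hC
  have hT := pGrp_TC hℓ hC
  exact tls_of_col hT.ne col hcol (tls_of_noRainbow hT.ne (hT.pw _ Pw_one) hT.mul hT.inv hB
    (by omega) (PQ.tendsto_binom d) hTr)

theorem noJ_of_noRainbowC {L : Type u} [Field L] [Infinite L] [CompatibleRing L] (hL : NIP L)
    {ℓ : ℕ} (hℓ : 0 < ℓ) {B C : Finset L} (hC : ∀ g ∈ C, g ≠ 0) (hB : NoRainbow (TC ℓ C) B)
    (D : LD L (Germ (UF L : Filter (Finset L)) L) ℓ) : NoJ D := by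
  classical
  intro G P F' e J
  have : P.IsPrime := J.max.isPrime
  let φ : L →+* ResidueField (locS (D.E G) P) := ((residue (locS (D.E G) P)).comp toLocS).comp
    ((algebraMap L (Germ (UF L : Filter (Finset L)) L)).codRestrict (D.E G)
      (D.algebraMap_mem G))
  have hinf : Infinite (ResidueField (locS (D.E G) P)) := Infinite.of_injective φ φ.injective
  let _ : CompatibleRing (Germ (UF L : Filter (Finset L)) L) := germCompat (UF L) L
  have hE : NIP (Germ (UF L : Filter (Finset L)) L) := NIP.germ hL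
  have hC' : ∀ g ∈ C.image (algebraMap L (Germ (UF L : Filter (Finset L)) L)), g ≠ 0 := by
    intro g hg
    obtain ⟨a, ha, rfl⟩ := Finset.mem_image.1 hg
    exact (map_ne_zero _).2 (hC a ha)
  obtain ⟨d, hd, hTr⟩ := trLe_TC hE hℓ hC'
  have hT := pGrp_TC hℓ hC'
  have h1 : Small d fun m => (∑ k ∈ Finset.range d, m.choose k) + m :=
    Small.add hd (PQ.tendsto_binom d)
  obtain ⟨N, col, hcol⟩ := exists_col hℓ hC'
  obtain ⟨col', hcol'⟩ := GT_col J col hcol
  exact not_TLS J (tls_of_col (fun x hx => hx.1) col' hcol'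
    (tls_of_noRainbow (fun x hx => hx.1) (GT_one hT J) (fun x hx y hy => GT_mul hT J hx hy)
      (fun x hx => GT_inv hT J hx) (noRainbow_GT D J hT (germ_TC hℓ hC hB)) (by omega) h1
      (trLe_GT hT J hTr)))

theorem exists_definable_of_noRainbowC {L : Type u} [Field L] [Infinite L] [CompatibleRing L]
    (hL : NIP L) {ℓ : ℕ} (hℓp : ℓ.Prime) (hℓ : (ℓ : L) ≠ 0) {ζ : L} (hζ : IsPrimitiveRoot ζ ℓ)
    (hi : ∃ i : L, i ^ 2 = -1) (ha : ∃ a : L, ∀ y, a ≠ y ^ ℓ) {B C : Finset L}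
    (hC : ∀ g ∈ C, g ≠ 0) (hB : NoRainbow (TC ℓ C) B) :
    ∃ O : ValuationSubring L, O ≠ ⊤ ∧ (univ : Set L).Definable₁ Language.ring {x | x ∈ O} :=
  LU.exists_definable_of_noJ hL hℓp hℓ hζ hi (tl_of_noRainbow hL hℓp.pos hC hB)
    (fun D => noJ_of_noRainbowC hL hℓp.pos hC hB D) ha

end Pool.Agent.NIPFields.RC
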