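import Mathlib

set_option autoImplicit false

/-!
# Groups which are sections of the absolute Galois group

`Sec K Q`: the group `Q` is a quotient of a subgroup of the Galois group of a finite Galois extension
of `K`. `SecF K Q`: there are a finite extension `E` of `K` and a finite Galois extension of `E` whose
Galois group is isomorphic to `Q`. The two conditions are equivalent in characteristic zero (files
`SecB`, `SecA`).
-/

namespace Pool.Agent.NIPFields.RC

universe u

/-- The group `Q` is a quotient of a subgroup of the Galois group of a finite Galois extension. -/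
def Sec (K : Type u) [Field K] (Q : Type) [Group Q] : Prop :=
  ∃ (N : Type u) (_ : Field N) (_ : Algebra K N), FiniteDimensional K N ∧ IsGalois K N ∧
    ∃ (H : Subgroup (N ≃ₐ[K] N)) (φ : H →* Q), Function.Surjective φ

/-- The group `Q` is the Galois group of a finite Galois extension of a finite extension of `K`. -/
def SecF (K : Type u) [Field K] (Q : Type) [Group Q] : Prop :=
  ∃ (E : Type u) (_ : Field E) (_ : Algebra K E), FiniteDimensional K E ∧
    ∃ (M : Type u) (_ : Field M) (_ : Algebra E M), FiniteDimensional E M ∧ IsGalois E M ∧
      Nonempty (Q ≃* (M ≃ₐ[E] M))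

theorem SecF.of_finite {K : Type u} [Field K] {L : Type u} [Field L] [Algebra K L]
    [FiniteDimensional K L] {Q : Type} [Group Q] (h : SecF L Q) : SecF K Q := by
  obtain ⟨E, _, _, h1, M, _, _, h2⟩ := h
  let _ : Algebra K E := ((algebraMap L E).comp (algebraMap K L)).toAlgebra
  have : IsScalarTower K L E := IsScalarTower.of_algebraMap_eq fun _ => rfl
  exact ⟨E, inferInstance, inferInstance, FiniteDimensional.trans K L E, M, inferInstance,
    inferInstance, h2⟩

end Pool.Agent.NIPFields.RC
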