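import Pool.Agent.NIPFields.RC.Sec
import Pool.Agent.NIPFields.RB.Cls

set_option autoImplicit false

/-!
# From surjective homomorphisms to sections of the Galois group

`Ω` is an algebraic closure of `L` (characteristic zero), and an extension of a field `F`;
`φ : Gal(Ω/F) → Q` factors through a finite Galois extension of `F` in `Ω`, and its restriction to the
automorphisms which fix `L` is onto.

Proof. Let `M` be the finite Galois extension of `F` in `Ω` of `FL`. It is generated over `F` by a finite
set `S ⊆ Ω` (`IntermediateField.fg_of_finiteDimensional`-like lemma, or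
`Field.exists_primitive_element F M`, or `M = adjoin F (p.rootSet Ω)` as in the proof of
`RB.exists_galois` in the file `RB/GalX.lean`). Let `p = ∏ s ∈ S, minpoly L s`, `N = IntermediateField.adjoin
L (p.rootSet Ω)`, a finite Galois extension of `L` (characteristic zero;
`IntermediateField.adjoin_rootSet_isSplittingField`; `Normal.of_isSplittingField`, separable because of
characteristic zero) with `S ⊆ N`. Let `Γ` be the subgroup of the `γ ∈ Gal(Ω/F)` which fix the elements of
`L`. Every `γ ∈ Γ` gives an element `γ_L` of `Ω ≃ₐ[L] Ω` with the same values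
(`AlgEquiv.ofRingEquiv`), and `r : Γ →* (N ≃ₐ[L] N)`, `r γ = AlgEquiv.restrictNormalHom N γ_L`, is a
homomorphism. If `r γ = 1` then `γ` fixes the elements of `N`, so of `S`, and of `F`, so of `M`
(`IntermediateField.adjoin_induction`), so `φ γ = 1`. Let `H = r.range`. The homomorphism `φ` on `Γ` is
trivial on the kernel of the surjective `r.rangeRestrict : Γ →* H`, so there is `ψ : H →* Q` with
`ψ (r γ) = φ γ` (`MonoidHom.liftOfRightInverse`, see `exists_factor` in `RB/GalX.lean`, or
`QuotientGroup.lift`), and `ψ` is onto because `φ(Γ) = Q`.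
-/

namespace Pool.Agent.NIPFields.RC

open Pool.Agent.NIPFields.RB

universe u

/-- A homomorphism which is trivial on the kernel of a surjective homomorphism factors. -/
private theorem exists_factor {G H Q : Type*} [Group G] [Group H] [Group Q] (r : G →* H)
    (hr : Function.Surjective r) (f : G →* Q) (h : ∀ g, r g = 1 → f g = 1) :
    ∃ ψ : H →* Q, ∀ g, ψ (r g) = f g := by
  refine ⟨MonoidHom.liftOfRightInverse r (Function.surjInv hr) (Function.rightInverse_surjInv hr)
    ⟨f, fun g hg => h g hg⟩, fun g => ?_⟩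
  exact MonoidHom.liftOfRightInverse_comp_apply r (Function.surjInv hr)
    (Function.rightInverse_surjInv hr) ⟨f, fun g hg => h g hg⟩ g

/-- The automorphisms which fix the elements of `L`. -/
private def Fix (F L Ω : Type u) [Field F] [Field L] [Field Ω] [Algebra F Ω] [Algebra L Ω] :
    Subgroup (Ω ≃ₐ[F] Ω) where
  carrier := {γ | ∀ x : L, γ (algebraMap L Ω x) = algebraMap L Ω x}
  one_mem' := fun _ => rfl
  mul_mem' := by
    intro a b ha hb x
    rw [AlgEquiv.mul_apply, hb, ha]
  inv_mem' := by
    intro a ha x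
    have h1 : a⁻¹ (a (algebraMap L Ω x)) = algebraMap L Ω x := by
      rw [← AlgEquiv.mul_apply, inv_mul_cancel]
      rfl
    rw [ha x] at h1
    exact h1

/-- Such an automorphism as an automorphism over `L`. -/
private def toL (F L Ω : Type u) [Field F] [Field L] [Field Ω] [Algebra F Ω] [Algebra L Ω] :
    Fix F L Ω →* (Ω ≃ₐ[L] Ω) where
  toFun := fun γ => AlgEquiv.ofRingEquiv (f := (γ : Ω ≃ₐ[F] Ω).toRingEquiv) γ.2
  map_one' := by
    ext x
    rfl
  map_mul' := fun γ δ => by
    ext x
    rfl

private theorem toL_apply {F L Ω : Type u} [Field F] [Field L] [Field Ω] [Algebra F Ω]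
    [Algebra L Ω] (γ : Fix F L Ω) (x : Ω) : toL F L Ω γ x = (γ : Ω ≃ₐ[F] Ω) x := rfl

theorem sec_of_surj {F L Ω : Type u} [Field F] [Field L] [Field Ω] [Algebra F Ω] [Algebra L Ω]
    [IsAlgClosed Ω] [Algebra.IsAlgebraic L Ω] [CharZero L] {ℓ : ℕ} {Q : Type} [Group Q]
    (φ : (Ω ≃ₐ[F] Ω) →* Q) (hφ : FL ℓ φ)
    (hsurj : ∀ q, ∃ γ : Ω ≃ₐ[F] Ω, (∀ x : L, γ (algebraMap L Ω x) = algebraMap L Ω x) ∧
      φ γ = q) : Sec L Q := by
  classical
  obtain ⟨M, ⟨hfin, hgal, -⟩, h1⟩ := hφ
  obtain ⟨p, hsep, hsplit⟩ := IsGalois.is_separable_splitting_field F M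
  have hM : M = IntermediateField.adjoin F (p.rootSet Ω) :=
    (IntermediateField.isSplittingField_iff.mp hsplit).2
  set q : Polynomial L := ∏ s ∈ (p.rootSet_finite Ω).toFinset, minpoly L s with hq
  have hint : ∀ s : Ω, IsIntegral L s := fun s => (Algebra.IsAlgebraic.isAlgebraic s).isIntegral
  have hq0 : q ≠ 0 := Finset.prod_ne_zero_iff.2 fun s _ => minpoly.ne_zero (hint s)
  have hqs : (q.map (algebraMap L Ω)).Splits := IsAlgClosed.splits _
  set N : IntermediateField L Ω := IntermediateField.adjoin L (q.rootSet Ω) with hN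
  have hNs : q.IsSplittingField L N := IntermediateField.adjoin_rootSet_isSplittingField hqs
  have hNf : FiniteDimensional L N := Polynomial.IsSplittingField.finiteDimensional N q
  have hNn : Normal L N := Normal.of_isSplittingField q
  have hNg : IsGalois L N := ⟨⟩
  have : IsAlgClosure L Ω := ⟨inferInstance, inferInstance⟩
  have : Normal L Ω := IsAlgClosure.normal L Ω
  have hrs : ∀ x ∈ p.rootSet Ω, x ∈ q.rootSet Ω := by
    intro x hx
    rw [Polynomial.mem_rootSet]
    refine ⟨hq0, ?_⟩
    rw [hq, map_prod]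
    exact Finset.prod_eq_zero ((p.rootSet_finite Ω).mem_toFinset.2 hx) (minpoly.aeval L x)
  let r : Fix F L Ω →* (N ≃ₐ[L] N) := (AlgEquiv.restrictNormalHom N).comp (toL F L Ω)
  let f : Fix F L Ω →* Q := φ.comp (Fix F L Ω).subtype
  obtain ⟨ψ, hψ⟩ := exists_factor r.rangeRestrict r.rangeRestrict_surjective f (by
    intro γ hγ
    have hγ' : AlgEquiv.restrictNormalHom N (toL F L Ω γ) = 1 := by
      have h2 := congrArg Subtype.val hγ
      exact h2
    refine h1 _ fun x hx => ?_
    have hfix : ∀ y ∈ N, (γ : Ω ≃ₐ[F] Ω) y = y := by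
      intro y hy
      have h3 := AlgEquiv.restrictNormalHom_apply N (toL F L Ω γ) ⟨y, hy⟩
      rw [hγ'] at h3
      exact h3.symm
    rw [hM] at hx
    change (γ : Ω ≃ₐ[F] Ω) x = x
    induction hx using IntermediateField.adjoin_induction with
    | mem x hx => exact hfix x (IntermediateField.subset_adjoin L _ (hrs x hx))
    | algebraMap x => exact AlgEquiv.commutes _ x
    | add x y _ _ hx hy => rw [map_add, hx, hy]
    | inv x _ hx => rw [map_inv₀, hx]
    | mul x y _ _ hx hy => rw [map_mul, hx, hy])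
  refine ⟨N, inferInstance, inferInstance, hNf, hNg, r.range, ψ, fun x => ?_⟩
  obtain ⟨γ, hγ, hx⟩ := hsurj x
  exact ⟨r.rangeRestrict ⟨γ, hγ⟩, by rw [hψ]; exact hx⟩

end Pool.Agent.NIPFields.RC
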