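import Pool.Agent.NIPFields.RC.CharNe
import Pool.Agent.NIPFields.RC.SecSurj
import Pool.Agent.NIPFields.RB.Surj
import Pool.Agent.NIPFields.RB.FinalS
import Pool.Agent.NIPFields.RB.Tsen

set_option autoImplicit false

/-!
# Sections of the Galois group from rainbow elements
-/

namespace Pool.Agent.NIPFields.RC

open Pool.Agent.NIPFields.RB

universe u

theorem sec_of_cosets {L L' : Type u} [Field L] [Field L'] [Algebra L L'] [CharZero L] {ℓ : ℕ}
    (hℓ : ℓ.Prime) {ζ : L} (hζ : IsPrimitiveRoot ζ ℓ)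
    (hrac : ∀ x : L', IsAlgebraic L x → ∃ a : L, algebraMap L L' a = x) {c : L'}
    (hc0 : ∀ b : L, c + algebraMap L L' b ≠ 0)
    (hc : ∀ b b' : L, b ≠ b' → ∀ a : L, a ≠ 0 → ∀ v : L',
      (c + algebraMap L L' b) / (c + algebraMap L L' b') ≠ algebraMap L L' a * v ^ ℓ)
    {Q : Type} [Group Q] [Finite Q] (hQ : IsPGroup ℓ Q) : Sec L' Q := by
  classical
  have hL' : CharZero L' := charZero_of_injective_algebraMap (algebraMap L L').injective
  let Ω := AlgebraicClosure L'
  let k : IntermediateField L Ω := algebraicClosure L Ω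
  have hkalg : IsAlgClosed k := (algebraicClosure.isAlgClosure L Ω).1
  let c' : Ω := algebraMap L' Ω c
  have hk : ∀ x : Ω, x ∈ k ↔ IsAlgebraic L x := fun x => mem_algebraicClosure_iff
  have hctr : Transcendental k c' := by
    intro halg
    have hkL : Algebra.IsAlgebraic L k := algebraicClosure.isAlgebraic L Ω
    have h1 : IsAlgebraic L c' := halg.restrictScalars L
    have h2 : IsAlgebraic L c :=
      (isAlgebraic_algebraMap_iff (algebraMap L' Ω).injective).1 h1
    obtain ⟨a, ha⟩ := hrac c h2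
    apply hc0 (-a)
    rw [map_neg, ha, add_neg_cancel]
  let F := IntermediateField.adjoin k {c'}
  let t : F := IntermediateField.AdjoinSimple.gen k c'
  have ht : RatGen k F t := ratGen_adjoin hctr
  have hF0 : CharZero F := charZero_of_injective_algebraMap (algebraMap k F).injective
  have hℓF : (ℓ : F) ≠ 0 := Nat.cast_ne_zero.2 hℓ.ne_zero
  have hζF : IsPrimitiveRoot (algebraMap k F (algebraMap L k ζ)) ℓ :=
    (hζ.map_of_injective (algebraMap L k).injective).map_of_injective
      (algebraMap k F).injective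
  have hNS : ∀ M : IntermediateField F Ω, Cls ℓ M → NormSurj F M ℓ := by
    intro M hM
    have := hM.fin
    have := hM.gal
    exact normSurj ht hℓ.pos
  set m : ℕ := ℓ ^ Nat.card Q + 2 with hm
  let b : Fin m → L := fun i => ((i : ℕ) : L)
  have hbinj : Function.Injective b := fun i j h => Fin.ext (Nat.cast_injective h)
  let a : Fin m → F := fun i => t + algebraMap k F (algebraMap L k (b i))
  have haΩ : ∀ i, algebraMap F Ω (a i) = algebraMap L' Ω (c + algebraMap L L' (b i)) := by
    intro i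
    have h1 : algebraMap F Ω (a i) = c' + algebraMap L Ω (b i) := rfl
    rw [h1, map_add, ← IsScalarTower.algebraMap_apply]
  have ha0 : ∀ i, a i ≠ 0 := by
    intro i h
    have h1 := haΩ i
    rw [h, map_zero, eq_comm, map_eq_zero] at h1
    exact hc0 _ h1
  have hch : ∀ i, ∃ (y : Ω) (χ : (Ω ≃ₐ[F] Ω) →* Multiplicative (ZMod ℓ)),
      y ^ ℓ = algebraMap F Ω (a i) ∧
      IsChar (algebraMap k F (algebraMap L k ζ)) y χ ∧ FL ℓ χ :=
    fun i => exists_char hℓ hℓF hζF (ha0 i)
  choose y χ hy hχ hFL using hch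
  have hy0 : ∀ i, y i ≠ 0 := by
    intro i h
    have h1 := hy i
    rw [h, zero_pow hℓ.ne_zero, eq_comm, map_eq_zero] at h1
    exact ha0 i h1
  let Γ : Subgroup (Ω ≃ₐ[F] Ω) :=
    { carrier := {γ | ∀ x : L', γ (algebraMap L' Ω x) = algebraMap L' Ω x}
      mul_mem' := by
        intro γ δ hγ hδ x
        rw [AlgEquiv.mul_apply, hδ x, hγ x]
      one_mem' := fun x => rfl
      inv_mem' := by
        intro γ hγ x
        have h1 : (γ⁻¹ * γ) (algebraMap L' Ω x) = algebraMap L' Ω x := by
          rw [inv_mul_cancel]; rfl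
        rw [AlgEquiv.mul_apply, hγ x] at h1
        exact h1 }
  have hFfix : ∀ σ : Ω ≃ₐ[L'] Ω, (∀ x : Ω, IsAlgebraic L x → σ x = x) →
      ∀ x : F, σ (algebraMap F Ω x) = algebraMap F Ω x := by
    intro σ hσ x
    obtain ⟨x, hx⟩ := x
    change σ x = x
    induction hx using IntermediateField.adjoin_induction with
    | mem x hx =>
      rw [Set.mem_singleton_iff.1 hx]
      exact σ.commutes c
    | algebraMap x => exact hσ _ ((hk _).1 x.2)
    | add x y _ _ hx hy => rw [map_add, hx, hy]
    | inv x _ hx => rw [map_inv₀, hx]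
    | mul x y _ _ hx hy => rw [map_mul, hx, hy]
  obtain ⟨φ, hφ, hsurj⟩ := exists_surj hℓ hℓF hζF hNS Γ χ hFL (by
      intro i j hij
      have h1 := char_ne_desc (L := L) (L' := L') (F := F) (Ω := Ω) hℓ hζ hrac hFfix
        (w := (c + algebraMap L L' (b i)) / (c + algebraMap L L' (b j)))
        (div_ne_zero (hc0 _) (hc0 _)) (hy0 i) (hy0 j) (by
          rw [div_pow, hy, hy, haΩ, haΩ, map_div₀]) (hχ i) (hχ j)
        (hc _ _ fun h => hij (hbinj h))
      obtain ⟨γ, h2, h3⟩ := h1
      exact ⟨γ, h2, h3⟩) (Nat.card Q) Q rfl hQ (by omega)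
  exact sec_of_surj φ hφ fun q => by
    obtain ⟨γ, h1, h2⟩ := hsurj q
    exact ⟨γ, h1, h2⟩

end Pool.Agent.NIPFields.RC
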