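import Mathlib
import Pool.Agent.NIPFields.LG.Defs

set_option autoImplicit false

/-!
# The group generated by the powers and a finite set

`TC ℓ C` is the set of all `x` such that the product of `x` and a product of powers of elements of
`C` is a non-zero `ℓ`-th power. If `0 ∉ C` it is a group which contains the group `Pw F ℓ` of all
non-zero `ℓ`-th powers with a finite index.

Proofs. `TC_ne`: `x = 0` gives `x * _ = 0`, but `0 ∉ Pw F ℓ` (`Pw_ne`). `Pw_subset_TC`: all exponents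
are `0`. `TC_mul`: add the exponents (`Finset.prod_mul_distrib`, `pow_add`, `Pw_mul`). `TC_inv`: if
`x * P ∈ Pw`, `P = ∏ g ∈ C, g ^ e g`, take the exponents `(ℓ - 1) * e g`: their product is
`P ^ (ℓ - 1)` (`Finset.prod_pow`) and `x⁻¹ * P ^ (ℓ - 1) = (x * P)⁻¹ * P ^ ℓ` is in `Pw` (`Pw_inv`,
`Pw_mul`; `P ≠ 0` because `0 ∉ C`). `mem_TC_of_mul`: `x = g * p`, `p ∈ Pw`: the exponent `ℓ - 1` at
`g` (and `0` elsewhere; `Finset.prod_eq_single_of_mem` or `Finset.prod_pow_boole`-like lemmas) gives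
`x * g ^ (ℓ - 1) = g ^ ℓ * p`. `exists_reps`: `R` is the set of all products `∏ g ∈ C, g ^ e g` with
exponents `e : C → Fin ℓ` (`Finset.univ.image` over the functions `C → Fin ℓ`, `Finset.prod_attach` or
`∏ g : C, (g : F) ^ (e g : ℕ)` and `Finset.prod_coe_sort`): if `x * ∏ g ^ e g ∈ Pw` then also
`x * ∏ g ^ (e g % ℓ) ∈ Pw`, because `g ^ e g = g ^ (e g % ℓ) * (g ^ (e g / ℓ)) ^ ℓ`
(`Nat.mod_add_div`), so the quotient is the `ℓ`-th power of `∏ g ^ (e g / ℓ) ≠ 0`. `exists_col`: for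
`x ∈ TC` choose `r x ∈ R` with `x * r x ∈ Pw`; the colour of `x` is the index of `r x` in
`R ≃ Fin R.card` (`Finset.equivFin`), arbitrary outside of `TC` (take `N = R.card + 1`). If the
colours agree then `x * y⁻¹ = (x * r) * (y * r)⁻¹ ∈ Pw`.
-/

namespace Pool.Agent.NIPFields.RC

open Pool.Agent.NIPFields.LG

/-- The group generated by the non-zero `ℓ`-th powers and the finite set `C`. -/
def TC {F : Type*} [Field F] (ℓ : ℕ) (C : Finset F) : Set F :=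
  {x | ∃ e : F → ℕ, x * ∏ g ∈ C, g ^ e g ∈ Pw F ℓ}

variable {F : Type*} [Field F] {ℓ : ℕ} {C : Finset F}

theorem TC_ne {x : F} (h : x ∈ TC ℓ C) : x ≠ 0 := by
  obtain ⟨e, he⟩ := h
  rintro rfl
  rw [zero_mul] at he
  exact Pw_ne he rfl

theorem Pw_subset_TC {x : F} (h : x ∈ Pw F ℓ) : x ∈ TC ℓ C := by
  refine ⟨fun _ => 0, ?_⟩
  simp only [pow_zero, Finset.prod_const_one, mul_one]
  exact h

theorem TC_mul {x y : F} (hx : x ∈ TC ℓ C) (hy : y ∈ TC ℓ C) : x * y ∈ TC ℓ C := by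
  obtain ⟨e, he⟩ := hx
  obtain ⟨f, hf⟩ := hy
  refine ⟨fun g => e g + f g, ?_⟩
  have h : x * y * ∏ g ∈ C, g ^ (e g + f g) =
      (x * ∏ g ∈ C, g ^ e g) * (y * ∏ g ∈ C, g ^ f g) := by
    simp only [pow_add, Finset.prod_mul_distrib]
    ring
  rw [h]
  exact Pw_mul he hf

private theorem prod_ne (hC : ∀ g ∈ C, g ≠ 0) (e : F → ℕ) : ∏ g ∈ C, g ^ e g ≠ 0 :=
  Finset.prod_ne_zero_iff.2 fun g hg => pow_ne_zero _ (hC g hg)

theorem TC_inv (hℓ : 0 < ℓ) (hC : ∀ g ∈ C, g ≠ 0) {x : F} (hx : x ∈ TC ℓ C) :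
    x⁻¹ ∈ TC ℓ C := by
  have hx0 := TC_ne hx
  obtain ⟨e, he⟩ := hx
  obtain ⟨m, rfl⟩ : ∃ m, ℓ = m + 1 := ⟨ℓ - 1, by omega⟩
  refine ⟨fun g => e g * m, ?_⟩
  have hP := prod_ne hC e
  have h : x⁻¹ * ∏ g ∈ C, g ^ (e g * m) =
      (x * ∏ g ∈ C, g ^ e g)⁻¹ * (∏ g ∈ C, g ^ e g) ^ (m + 1) := by
    simp only [pow_mul, Finset.prod_pow]
    generalize (∏ g ∈ C, g ^ e g) = P at hP ⊢
    rw [pow_succ, mul_inv]
    field_simp
  rw [h]
  exact Pw_mul (Pw_inv he) ⟨_, hP, rfl⟩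

theorem mem_TC_of_mul (hℓ : 0 < ℓ) (hC : ∀ g ∈ C, g ≠ 0) {g p : F} (hg : g ∈ C)
    (hp : p ∈ Pw F ℓ) : g * p ∈ TC ℓ C := by
  classical
  obtain ⟨m, rfl⟩ : ∃ m, ℓ = m + 1 := ⟨ℓ - 1, by omega⟩
  refine ⟨fun h => if h = g then m else 0, ?_⟩
  have h1 : ∏ h ∈ C, h ^ (if h = g then m else 0) = g ^ m := by
    rw [Finset.prod_eq_single_of_mem g hg (fun b _ hb => by rw [if_neg hb, pow_zero]), if_pos rfl]
  have h2 : g * p * g ^ m = p * g ^ (m + 1) := by ring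
  rw [h1, h2]
  exact Pw_mul hp ⟨g, hC g hg, rfl⟩

theorem exists_reps (hℓ : 0 < ℓ) (hC : ∀ g ∈ C, g ≠ 0) :
    ∃ R : Finset F, (∀ r ∈ R, r ≠ 0) ∧ (∀ r ∈ R, ∃ e : F → ℕ, r = ∏ g ∈ C, g ^ e g) ∧
      ∀ x : F, x ∈ TC ℓ C ↔ ∃ r ∈ R, x * r ∈ Pw F ℓ := by
  classical
  let R : Finset F := Finset.univ.image (fun e : C → Fin ℓ => ∏ g : C, (g : F) ^ (e g : ℕ))
  have hR : ∀ r ∈ R, ∃ e : F → ℕ, r = ∏ g ∈ C, g ^ e g := by
    intro r hr
    obtain ⟨e, -, rfl⟩ := Finset.mem_image.1 hr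
    refine ⟨fun g => if h : g ∈ C then (e ⟨g, h⟩ : ℕ) else 0, ?_⟩
    rw [← Finset.prod_coe_sort C (fun g : F => g ^ (if h : g ∈ C then (e ⟨g, h⟩ : ℕ) else 0))]
    refine Finset.prod_congr rfl fun g _ => ?_
    rw [dif_pos g.2]
  refine ⟨R, ?_, hR, ?_⟩
  · intro r hr
    obtain ⟨e, rfl⟩ := hR r hr
    exact prod_ne hC e
  · intro x
    constructor
    · rintro ⟨e, he⟩
      refine ⟨∏ g ∈ C, g ^ (e g % ℓ), ?_, ?_⟩
      · refine Finset.mem_image.2 ⟨fun g => ⟨e g % ℓ, Nat.mod_lt _ hℓ⟩, Finset.mem_univ _, ?_⟩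
        exact Finset.prod_coe_sort C (fun g : F => g ^ (e g % ℓ))
      · have hQ := prod_ne hC (fun g => e g / ℓ)
        have h1 : ∏ g ∈ C, g ^ e g =
            (∏ g ∈ C, g ^ (e g % ℓ)) * (∏ g ∈ C, g ^ (e g / ℓ)) ^ ℓ := by
          rw [← Finset.prod_pow, ← Finset.prod_mul_distrib]
          refine Finset.prod_congr rfl fun g _ => ?_
          rw [← pow_mul, ← pow_add]
          congr 1
          have := Nat.mod_add_div (e g) ℓ
          rw [mul_comm] at this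
          exact this.symm
        have h2 : x * ∏ g ∈ C, g ^ (e g % ℓ) =
            (x * ∏ g ∈ C, g ^ e g) * ((∏ g ∈ C, g ^ (e g / ℓ)) ^ ℓ)⁻¹ := by
          rw [h1]
          have h3 : (∏ g ∈ C, g ^ (e g / ℓ)) ^ ℓ ≠ 0 := pow_ne_zero _ hQ
          field_simp
        rw [h2]
        exact Pw_mul he (Pw_inv ⟨_, hQ, rfl⟩)
    · rintro ⟨r, hr, h⟩
      obtain ⟨e, rfl⟩ := hR r hr
      exact ⟨e, h⟩

theorem exists_col (hℓ : 0 < ℓ) (hC : ∀ g ∈ C, g ≠ 0) :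
    ∃ (N : ℕ) (col : F → Fin N), ∀ x ∈ TC ℓ C, ∀ y ∈ TC ℓ C, col x = col y →
      x * y⁻¹ ∈ Pw F ℓ := by
  classical
  obtain ⟨R, hR0, -, hR⟩ := exists_reps hℓ hC
  have h1 : ∀ x : F, ∃ r, x ∈ TC ℓ C → r ∈ R ∧ x * r ∈ Pw F ℓ := by
    intro x
    by_cases hx : x ∈ TC ℓ C
    · obtain ⟨r, hr, h⟩ := (hR x).1 hx
      exact ⟨r, fun _ => ⟨hr, h⟩⟩
    · exact ⟨0, fun h => (hx h).elim⟩
  choose r hr using h1
  refine ⟨R.card + 1, fun x => if h : x ∈ TC ℓ C then (R.equivFin ⟨r x, (hr x h).1⟩).castSucc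
    else Fin.last _, ?_⟩
  intro x hx y hy hxy
  simp only [dif_pos hx, dif_pos hy] at hxy
  have h2 : r x = r y :=
    congrArg Subtype.val (R.equivFin.injective (Fin.castSucc_injective _ hxy))
  have h3 := (hr x hx).2
  have h4 := (hr y hy).2
  rw [← h2] at h4
  have h5 := hR0 _ (hr x hx).1
  have hy0 := TC_ne hy
  have h6 : x * y⁻¹ = (x * r x) * (y * r x)⁻¹ := by
    field_simp
  rw [h6]
  exact Pw_mul h3 (Pw_inv h4)

end Pool.Agent.NIPFields.RC
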