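import Mathlib
import Pool.Agent.NIPFields.LV.GPrime
import Pool.Agent.NIPFields.PQ.HJ

set_option autoImplicit false

/-!
# The condition `TLS` for a group and for a subgroup of finite index

`T` is a set of non-zero elements, `H` is another set, and `T` is coloured with `N` colours such that
the quotient of two elements of `T` of the same colour is in `H`. If `T` satisfies `TLS` then `H`
satisfies `TLS`.

Proof. Let `A` be finite. Apply `PQ.exists_affine_copy` to `insert 0 A` and `N` colours: there is a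
finite set `B0` such that for every cover of `B0` by sets `S 0, …, S (N - 1)` there are `i, u, v`,
`v ≠ 0`, with `u + a * v ∈ S i` for all `a ∈ insert 0 A`. By `TLS` for `T` and the set `B0` there is
`δ ≠ 0` with `1 + b * δ ∈ T` for all `b ∈ B0`. Let `S i` be the set of all `b` such that
`1 + b * δ ∈ T` and `col (1 + b * δ) = i`. They cover `B0`. So there are `i, u, v`; `u = u + 0 * v`
is in `S i`, and for `a ∈ A` also `u + a * v ∈ S i`. So
`(1 + (u + a * v) * δ) * (1 + u * δ)⁻¹ ∈ H`, and this is `1 + a * (v * δ / (1 + u * δ))`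
(`1 + u * δ ≠ 0`, it is in `T`). The element `v * δ / (1 + u * δ)` is not zero.
-/

namespace Pool.Agent.NIPFields.RC

open Pool.Agent.NIPFields.LV

theorem tls_of_col {F : Type*} [Field F] [Infinite F] {H T : Set F} (h0 : ∀ x ∈ T, x ≠ 0)
    {N : ℕ} (col : F → Fin N) (hcol : ∀ x ∈ T, ∀ y ∈ T, col x = col y → x * y⁻¹ ∈ H)
    (hT : TLS F T) : TLS F H := by
  classical
  intro A
  obtain ⟨B0, hB0⟩ := PQ.exists_affine_copy (insert 0 A) N
  obtain ⟨δ, hδ, hB⟩ := hT B0
  obtain ⟨i, u, v, hv, hS⟩ := hB0 (fun i => {b | 1 + b * δ ∈ T ∧ col (1 + b * δ) = i})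
    (fun b hb => ⟨col (1 + b * δ), hB b hb, rfl⟩)
  have hu : 1 + u * δ ∈ T ∧ col (1 + u * δ) = i := by
    have h := hS 0 (Finset.mem_insert_self 0 A)
    rw [zero_mul, add_zero] at h
    exact h
  have hu0 : 1 + u * δ ≠ 0 := h0 _ hu.1
  refine ⟨v * δ / (1 + u * δ), div_ne_zero (mul_ne_zero hv hδ) hu0, fun a ha => ?_⟩
  have h := hS a (Finset.mem_insert_of_mem ha)
  have h2 := hcol _ h.1 _ hu.1 (h.2.trans hu.2.symm)
  have h3 : (1 + (u + a * v) * δ) * (1 + u * δ)⁻¹ = 1 + a * (v * δ / (1 + u * δ)) := by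
    field_simp
    ring
  rwa [h3] at h2

end Pool.Agent.NIPFields.RC
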