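import Pool.Agent.NIPFields.RC.FinalC

set_option autoImplicit false

/-!
# A common form of the theorems in characteristic zero
-/

namespace Pool.Agent.NIPFields.RC

open FirstOrder FirstOrder.Language FirstOrder.Ring Set IsLocalRing Filter Polynomial
open Pool.Agent.NIPFields.LC Pool.Agent.NIPFields.LG Pool.Agent.NIPFields.FI
open Pool.Agent.NIPFields.LZ Pool.Agent.NIPFields.RB

universe u

/-- A subgroup which contains the powers with finite index is contained in a group `TC`. -/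
theorem exists_TC_of_subgroup {L : Type u} [Field L] {ℓ : ℕ} (hℓ : 0 < ℓ) {T : Subgroup Lˣ}
    (hT : ((powMonoidHom ℓ : Lˣ →* Lˣ).range.subgroupOf T).FiniteIndex) :
    ∃ C : Finset L, (∀ g ∈ C, g ≠ 0) ∧ ∀ x : Lˣ, x ∈ T → (x : L) ∈ TC ℓ C := by
  classical
  set S := (powMonoidHom ℓ : Lˣ →* Lˣ).range.subgroupOf T with hS
  have hfin : Finite (T ⧸ S) := Subgroup.finite_quotient_of_finiteIndex
  let _ : Fintype (T ⧸ S) := Fintype.ofFinite _
  let r : T ⧸ S → L := fun q => ((Quotient.out q : T) : Lˣ)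
  have hC : ∀ g ∈ Finset.univ.image r, g ≠ 0 := by
    intro g hg
    obtain ⟨q, _, rfl⟩ := Finset.mem_image.1 hg
    exact Units.ne_zero _
  refine ⟨Finset.univ.image r, hC, fun x hx => ?_⟩
  have h1 : (Quotient.out (QuotientGroup.mk ⟨x, hx⟩ : T ⧸ S))⁻¹ * ⟨x, hx⟩ ∈ S := by
    rw [← QuotientGroup.eq]
    exact Quotient.out_eq _
  rw [hS, Subgroup.mem_subgroupOf] at h1
  obtain ⟨y, hy⟩ := h1
  set g : T := Quotient.out (QuotientGroup.mk ⟨x, hx⟩ : T ⧸ S) with hg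
  have h2 : x = (g : Lˣ) * y ^ ℓ := by
    have h3 : y ^ ℓ = (g : Lˣ)⁻¹ * x := hy
    rw [h3, mul_inv_cancel_left]
  rw [h2, Units.val_mul]
  refine mem_TC_of_mul hℓ hC (Finset.mem_image_of_mem r (Finset.mem_univ
    (QuotientGroup.mk ⟨x, hx⟩ : T ⧸ S))) ⟨y, y.ne_zero, ?_⟩
  rw [Units.val_pow_eq_pow_val]

/-- The existence of a definable valuation of a finite extension. -/
theorem exists_definable_ext {K : Type u} [Field K] [CompatibleRing K] (hK : NIP K) [CharZero K]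
    {L : Type u} [Field L] [Algebra K L] [FiniteDimensional K L] {ℓ : ℕ} (hℓ : ℓ.Prime)
    (hi : ∃ i : L, i ^ 2 = -1) {ζ : L} (hζ : IsPrimitiveRoot ζ ℓ) (ha : ∃ a : L, ∀ y, a ≠ y ^ ℓ)
    {B C : Finset L} (hC : ∀ g ∈ C, g ≠ 0) (hB : NoRainbow (TC ℓ C) B) :
    ∃ O : ValuationSubring K, O ≠ ⊤ ∧ (univ : Set K).Definable₁ Language.ring {x | x ∈ O} := by
  have _ : Infinite K := CharZero.infinite K
  have hL0 : CharZero L := charZero_of_injective_algebraMap (algebraMap K L).injective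
  let _ : CompatibleRing L := compatibleRingOfRing L
  have hL : NIP L := hK.finite (Module.finBasis K L)
  have hinf : Infinite L := CharZero.infinite L
  obtain ⟨O', h1, hd⟩ := exists_definable_of_noRainbowC hL hℓ (Nat.cast_ne_zero.2 hℓ.ne_zero)
    hζ hi ha hC hB
  obtain ⟨O, hO1, hO2⟩ := LC.exists_definable_restrict (K := K) h1 hd
  exact ⟨O, hO1, hO2⟩

/-- The case of a finite `ℓ`-group which is not a section. -/
theorem exists_definable_of_not_secF {K : Type u} [Field K] [CompatibleRing K] (hK : NIP K)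
    [CharZero K] {L : Type u} [Field L] [Algebra K L] [FiniteDimensional K L] {ℓ : ℕ}
    (hℓ : ℓ.Prime) (hi : ∃ i : L, i ^ 2 = -1) (ha : ∃ a : L, ∀ y, a ≠ y ^ ℓ) {Q : Type} [Group Q]
    [Finite Q] (hQ : IsPGroup ℓ Q) (hno : ¬ SecF K Q) :
    ∃ O : ValuationSubring K, O ≠ ⊤ ∧ (univ : Set K).Definable₁ Language.ring {x | x ∈ O} := by
  obtain ⟨O, h1, -, h2⟩ := theoremS0sec hK hℓ hi ha hQ hno
  exact ⟨O, h1, h2⟩

/-- **The theorems in characteristic zero.** -/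
theorem theoremU0 {K : Type u} [Field K] [CompatibleRing K] (hK : NIP K) [CharZero K]
    {L : Type u} [Field L] [Algebra K L] [FiniteDimensional K L] {ℓ : ℕ} (hℓ : ℓ.Prime)
    (hi : ∃ i : L, i ^ 2 = -1) (ha : ∃ a : L, ∀ y, a ≠ y ^ ℓ)
    (hL : ((∃ ζ : L, IsPrimitiveRoot ζ ℓ) ∧ ∃ (B : Finset L) (T : Set L),
        NoRainbow T B ∧ ∃ C : Finset L, (∀ g ∈ C, g ≠ 0) ∧ ∀ x ∈ T, x ∈ TC ℓ C) ∨
      (∃ (Q : Type) (_ : Group Q), Finite Q ∧ IsPGroup ℓ Q ∧ ¬ SecF K Q) ∨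
      (Nonempty (AlgebraicClosure ℚ →+* K) ∧ ∃ (Q : Type) (_ : Group Q), Finite Q ∧
        IsPGroup ℓ Q ∧ ∀ (M : Type u) [Field M] [Algebra L M], FiniteDimensional L M →
          IsGalois L M → IsEmpty (Q ≃* (M ≃ₐ[L] M)))) {q : ℕ} (hq : q.Prime)
    (hE : (∃ (Q : Type) (_ : Group Q), Finite Q ∧ IsPGroup q Q ∧ ¬ SecF K Q) ∨
      ∀ (E : Type u) [Field E] [Algebra K E] [FiniteDimensional K E],
        (∃ B : Finset E, (∀ b ∈ B, IsAlgebraic ℤ b) ∧ NoRainbow (Pw E q) B) ∨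
        (Nonempty (AlgebraicClosure ℚ →+* K) ∧ ∃ (Q : Type) (_ : Group Q), Finite Q ∧
          IsPGroup q Q ∧ ∀ (M : Type u) [Field M] [Algebra E M], FiniteDimensional E M →
            IsGalois E M → IsEmpty (Q ≃* (M ≃ₐ[E] M)))) :
    ∃ O : ValuationSubring K, O ≠ ⊤ ∧ HenselianLocalRing O ∧
      (univ : Set K).Definable₁ Language.ring {x | x ∈ O} := by
  have hL0 : CharZero L := charZero_of_injective_algebraMap (algebraMap K L).injective
  obtain ⟨O, hO1, hO2⟩ : ∃ O : ValuationSubring K, O ≠ ⊤ ∧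
      (univ : Set K).Definable₁ Language.ring {x | x ∈ O} := by
    rcases hL with ⟨⟨ζ, hζ⟩, B, T, hB, C, hC, hTC⟩ | ⟨Q, _, _, hQ, hno⟩ | ⟨⟨φ⟩, Q, _, _, hQ, hno⟩
    · refine exists_definable_ext hK hℓ hi hζ ha hC (B := B) fun c hc => ?_
      obtain ⟨b, hb, b', hb', hne, h⟩ := hB c hc
      exact ⟨b, hb, b', hb', hne, hTC _ h⟩
    · exact exists_definable_of_not_secF hK hℓ hi ha hQ hno
    · have hne : NeZero (ℓ : AlgebraicClosure ℚ) := ⟨Nat.cast_ne_zero.2 hℓ.ne_zero⟩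
      obtain ⟨ζ, hζ⟩ := HasEnoughRootsOfUnity.exists_primitiveRoot (AlgebraicClosure ℚ) ℓ
      obtain ⟨B, -, hB⟩ := noRainbow_of_group ((algebraMap K L).comp φ) hℓ hQ hno
      exact exists_definable_ext hK hℓ hi
        (hζ.map_of_injective ((algebraMap K L).comp φ).injective) ha (C := ∅)
        (by simp) fun c hc => by
          obtain ⟨b, hb, b', hb', hne, h⟩ := hB c hc
          exact ⟨b, hb, b', hb', hne, Pw_subset_TC h⟩
  refine ⟨O, hO1, ?_, hO2⟩
  rcases hE with ⟨Q, _, _, hQ, hno⟩ | hE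
  · exact henselian_of_not_secF hK hq hQ hno hO2
  · refine henselian_of_definable_q hK hq (fun E _ _ _ => ?_) hO2
    have hE0 : CharZero E := charZero_of_injective_algebraMap (algebraMap K E).injective
    rcases hE E with h | ⟨⟨φ⟩, Q, _, _, hQ, hno⟩
    · exact h
    · exact noRainbow_of_group ((algebraMap K E).comp φ) hq hQ hno

end Pool.Agent.NIPFields.RC
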